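import Mathlib
import Pool.Agent.Y958.U.Stm

set_option autoImplicit false

/-!
# The complement of a set of logarithmic density zero is infinite
-/

namespace Pool.Agent.Run7.h103.SP

open Finset Filter Topology
open Pool.Agent.Y958.U (LZ)

lemma LZ_freq {E : Set ℕ} (hE : LZ E) : ∃ᶠ N : ℕ in atTop, N ∉ E := by
  classical
  intro hcon
  obtain ⟨N₀, hN₀⟩ := eventually_atTop.1 hcon
  have hin : ∀ N ≥ N₀, N ∈ E := fun N hN => by
    have := hN₀ N hN
    rwa [not_not] at this
  have h1 : ∀ X : ℕ, Real.log X - ∑ n ∈ range N₀, ((n : ℝ)⁻¹) ≤ ∑ n ∈ Icc 1 X, if n ∈ E then (1 : ℝ) / n else 0 := by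
    intro X
    have h2 : Real.log X ≤ ∑ n ∈ Icc 1 X, ((n : ℝ)⁻¹) := by
      have h3 := log_add_one_le_harmonic X
      rw [harmonic_eq_sum_Icc] at h3
      push_cast at h3
      refine le_trans ?_ h3
      rcases Nat.eq_zero_or_pos X with h0 | h0
      · rw [h0]; simp
      · refine Real.log_le_log (by exact_mod_cast h0) (by linarith)
    have h3 : ∑ n ∈ Icc 1 X, ((n : ℝ)⁻¹) ≤
        ∑ n ∈ Icc 1 X, ((if n ∈ E then (1 : ℝ) / n else 0) + if n ∈ range N₀ then ((n : ℝ)⁻¹) else 0) := by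
      refine sum_le_sum fun n _ => ?_
      have h5 : (0 : ℝ) ≤ (n : ℝ)⁻¹ := by positivity
      by_cases hn : n < N₀
      · rw [if_pos (mem_range.2 hn)]
        split_ifs with h
        · rw [one_div]; linarith
        · linarith
      · rw [if_pos (hin n (by omega)), one_div]
        split_ifs with h
        · linarith
        · linarith
    rw [sum_add_distrib] at h3
    have h4 : ∑ n ∈ Icc 1 X, (if n ∈ range N₀ then ((n : ℝ)⁻¹) else 0) ≤ ∑ n ∈ range N₀, ((n : ℝ)⁻¹) := by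
      rw [← sum_filter]
      refine sum_le_sum_of_subset_of_nonneg (fun n hn => (mem_filter.1 hn).2) fun n _ _ => by positivity
    linarith
  have h2 : ∀ᶠ X : ℕ in atTop,
      (∑ n ∈ Icc 1 X, if n ∈ E then (1 : ℝ) / n else 0) / Real.log X < 1 / 2 :=
    hE.eventually (gt_mem_nhds (by norm_num))
  have h3 : Tendsto (fun X : ℕ => Real.log X) atTop atTop :=
    Real.tendsto_log_atTop.comp tendsto_natCast_atTop_atTop
  set C : ℝ := ∑ n ∈ range N₀, ((n : ℝ)⁻¹) with hC
  obtain ⟨X, hX1, hX2⟩ := (h2.and (h3.eventually (eventually_gt_atTop (max 1 (2 * C))))).exists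
  have hpos : 0 < Real.log X := lt_of_lt_of_le one_pos ((le_max_left _ _).trans hX2.le)
  rw [div_lt_iff₀ hpos] at hX1
  have h4 := h1 X
  have h5 : 2 * C < Real.log X := lt_of_le_of_lt (le_max_right _ _) hX2
  linarith

/-- an ultrafilter of large scales outside of the set -/
lemma ultra {E : Set ℕ} (hE : LZ E) : ∃ U : Ultrafilter ℕ, (U : Filter ℕ) ≤ atTop ∧ Eᶜ ∈ U := by
  have h1 : NeBot (atTop ⊓ 𝓟 Eᶜ : Filter ℕ) := by
    have := LZ_freq hE
    exact frequently_mem_iff_neBot.1 this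
  obtain ⟨U, hU⟩ := Ultrafilter.exists_le (atTop ⊓ 𝓟 Eᶜ : Filter ℕ)
  exact ⟨U, hU.trans inf_le_left, le_principal_iff.1 (hU.trans inf_le_right)⟩

end Pool.Agent.Run7.h103.SP
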