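import Mathlib

set_option autoImplicit false

/-!
# Nearly orthogonal families of functions with values `±1`: Bessel's inequality for products, most of the
# products of `n` members are small
-/

namespace Pool.Agent.Run7.h103.SP

open Finset

/-- approximate orthogonality -/
def Orth {ι : Type} (x : ι → ℕ → ℝ) (δ : ℝ) (N : ℕ) : Prop :=
  ∀ i j, i ≠ j → |∑ n ∈ Icc 1 N, x i n * x j n| ≤ δ * N

variable {ι : Type} [Fintype ι]

/-- **Bessel's inequality** -/
theorem bessel {x : ι → ℕ → ℝ} (hx : ∀ i n, x i n ^ 2 = 1) {δ : ℝ} {N : ℕ}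
    (ho : Orth x δ N) {g : ℕ → ℝ} (hg : ∀ n, |g n| ≤ 1) (hδ : 0 ≤ δ) :
    ∑ i, (∑ n ∈ Icc 1 N, g n * x i n) ^ 2 ≤ (1 + (Fintype.card ι : ℝ) ^ 2 * δ) * (N : ℝ) ^ 2 := by
  classical
  have hxa : ∀ i n, |x i n| = 1 := by
    intro i n
    have h1 := hx i n
    rw [← sq_abs] at h1
    have h2 := abs_nonneg (x i n)
    nlinarith
  set K : ℝ := (Fintype.card ι : ℝ) with hK
  set c : ι → ℝ := fun i => ∑ n ∈ Icc 1 N, g n * x i n with hc
  set s : ℝ := ∑ i, c i ^ 2 with hs
  have hN0 : (0 : ℝ) ≤ N := Nat.cast_nonneg N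
  have hcard : ∑ _n ∈ Icc 1 N, (1 : ℝ) = N := by simp
  have hcb : ∀ i, |c i| ≤ N := by
    intro i
    refine (abs_sum_le_sum_abs _ _).trans ?_
    rw [← hcard]
    refine sum_le_sum fun n _ => ?_
    rw [abs_mul, hxa, mul_one]
    exact hg n
  have hs0 : 0 ≤ s := sum_nonneg fun i _ => sq_nonneg _
  have hsN : s ≤ K * (N : ℝ) ^ 2 := by
    rw [hs, hK]
    calc ∑ i, c i ^ 2 ≤ ∑ _i : ι, (N : ℝ) ^ 2 := by
          refine sum_le_sum fun i _ => ?_
          rw [← sq_abs]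
          exact pow_le_pow_left₀ (abs_nonneg _) (hcb i) 2
      _ = _ := by rw [sum_const, card_univ, nsmul_eq_mul]
  -- `s = ∑ g (∑ c_i x_i)`
  have h1 : s = ∑ n ∈ Icc 1 N, g n * ∑ i, c i * x i n := by
    rw [hs]
    calc ∑ i, c i ^ 2 = ∑ i, ∑ n ∈ Icc 1 N, g n * (c i * x i n) := by
          refine sum_congr rfl fun i _ => ?_
          rw [sq]
          nth_rewrite 2 [hc]
          rw [mul_sum]
          refine sum_congr rfl fun n _ => ?_
          ring
      _ = _ := by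
          rw [sum_comm]
          refine sum_congr rfl fun n _ => ?_
          rw [mul_sum]
  have h2 : s ^ 2 ≤ N * ∑ n ∈ Icc 1 N, (∑ i, c i * x i n) ^ 2 := by
    rw [h1]
    refine (sum_mul_sq_le_sq_mul_sq _ _ _).trans ?_
    refine mul_le_mul_of_nonneg_right ?_ (sum_nonneg fun n _ => sq_nonneg _)
    rw [← hcard]
    refine sum_le_sum fun n _ => ?_
    rw [← sq_abs]
    have := hg n
    have := abs_nonneg (g n)
    nlinarith
  have h3 : ∑ n ∈ Icc 1 N, (∑ i, c i * x i n) ^ 2 =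
      ∑ i, ∑ j, c i * c j * ∑ n ∈ Icc 1 N, x i n * x j n := by
    calc ∑ n ∈ Icc 1 N, (∑ i, c i * x i n) ^ 2
        = ∑ n ∈ Icc 1 N, ∑ i, ∑ j, c i * c j * (x i n * x j n) := by
          refine sum_congr rfl fun n _ => ?_
          rw [sq, sum_mul_sum]
          refine sum_congr rfl fun i _ => sum_congr rfl fun j _ => ?_
          ring
      _ = _ := by
          rw [sum_comm]
          refine sum_congr rfl fun i _ => ?_
          rw [sum_comm]
          refine sum_congr rfl fun j _ => ?_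
          exact (mul_sum (Icc 1 N) (fun n => x i n * x j n) (c i * c j)).symm
  have h4 : ∑ n ∈ Icc 1 N, (∑ i, c i * x i n) ^ 2 ≤ s * N + K ^ 2 * (δ * N) * (N : ℝ) ^ 2 := by
    rw [h3]
    have h5 : ∀ i j, c i * c j * ∑ n ∈ Icc 1 N, x i n * x j n ≤
        (if i = j then c i ^ 2 * N else 0) + (N : ℝ) ^ 2 * (δ * N) := by
      intro i j
      by_cases hij : i = j
      · subst hij
        rw [if_pos rfl]
        have e : ∑ n ∈ Icc 1 N, x i n * x i n = N := by
          rw [← hcard]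
          refine sum_congr rfl fun n _ => ?_
          rw [← sq, hx]
        rw [e, ← sq]
        have : 0 ≤ (N : ℝ) ^ 2 * (δ * N) := by positivity
        linarith
      · rw [if_neg hij, zero_add]
        refine (le_abs_self _).trans ?_
        rw [abs_mul, abs_mul, sq]
        exact mul_le_mul (mul_le_mul (hcb i) (hcb j) (abs_nonneg _) hN0) (ho i j hij)
          (abs_nonneg _) (by positivity)
    calc ∑ i, ∑ j, c i * c j * ∑ n ∈ Icc 1 N, x i n * x j n
        ≤ ∑ i, ∑ j, ((if i = j then c i ^ 2 * N else 0) + (N : ℝ) ^ 2 * (δ * N)) :=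
          sum_le_sum fun i _ => sum_le_sum fun j _ => h5 i j
      _ = s * N + K ^ 2 * (δ * N) * (N : ℝ) ^ 2 := by
          simp only [sum_add_distrib, sum_ite_eq, mem_univ, if_true, sum_const, card_univ,
            nsmul_eq_mul]
          rw [hs, sum_mul]
          ring
  rcases Nat.eq_zero_or_pos N with hN | hN
  · subst hN
    simp only [Nat.cast_zero] at hsN ⊢
    have : s ≤ 0 := by simpa using hsN
    refine this.trans ?_
    positivity
  · have hNp : (0 : ℝ) < N := by exact_mod_cast hN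
    by_contra hcon
    push Not at hcon
    have h5 : (N : ℝ) ^ 2 < s := by
      refine lt_of_le_of_lt ?_ hcon
      have : 0 ≤ K ^ 2 * δ * (N : ℝ) ^ 2 := by positivity
      nlinarith
    have h6 : s ^ 2 ≤ N * (s * N + K ^ 2 * (δ * N) * (N : ℝ) ^ 2) :=
      h2.trans (mul_le_mul_of_nonneg_left h4 hN0)
    have h7 : N * (s * N + K ^ 2 * (δ * N) * (N : ℝ) ^ 2) = (N : ℝ) ^ 2 * (s + K ^ 2 * δ * (N : ℝ) ^ 2) := by
      ring
    rw [h7] at h6
    have h8 : (N : ℝ) ^ 2 * (s + K ^ 2 * δ * (N : ℝ) ^ 2) ≤ (N : ℝ) ^ 2 * (s + K ^ 2 * δ * s) := by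
      refine mul_le_mul_of_nonneg_left ?_ (by positivity)
      have : K ^ 2 * δ * (N : ℝ) ^ 2 ≤ K ^ 2 * δ * s := mul_le_mul_of_nonneg_left h5.le (by positivity)
      linarith
    have h9 : s * s ≤ s * ((1 + K ^ 2 * δ) * (N : ℝ) ^ 2) := by nlinarith
    have hsp : 0 < s := lt_of_le_of_lt (by positivity) h5
    have h10 := le_of_mul_le_mul_left h9 hsp
    linarith

/-- few members correlate with a given function -/
theorem few {x : ι → ℕ → ℝ} (hx : ∀ i n, x i n ^ 2 = 1) {δ : ℝ} {N : ℕ} (hN : 1 ≤ N)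
    (ho : Orth x δ N) {g : ℕ → ℝ} (hg : ∀ n, |g n| ≤ 1) (hδ : 0 ≤ δ)
    (hδ' : (Fintype.card ι : ℝ) ^ 2 * δ ≤ 1) {θ : ℝ} (hθ : 0 < θ) [DecidablePred fun i : ι =>
      θ * N < |∑ n ∈ Icc 1 N, g n * x i n|] :
    ((univ.filter fun i : ι => θ * N < |∑ n ∈ Icc 1 N, g n * x i n|).card : ℝ) ≤ 2 / θ ^ 2 := by
  have h1 := bessel hx ho hg hδ
  have hNp : (0 : ℝ) < N := by exact_mod_cast hN
  have h2 : ((univ.filter fun i : ι => θ * N < |∑ n ∈ Icc 1 N, g n * x i n|).card : ℝ) *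
      (θ * N) ^ 2 ≤ ∑ i, (∑ n ∈ Icc 1 N, g n * x i n) ^ 2 := by
    calc ((univ.filter fun i : ι => θ * N < |∑ n ∈ Icc 1 N, g n * x i n|).card : ℝ) * (θ * N) ^ 2
        = ∑ _i ∈ univ.filter (fun i : ι => θ * N < |∑ n ∈ Icc 1 N, g n * x i n|), (θ * N) ^ 2 := by
          rw [sum_const, nsmul_eq_mul]
      _ ≤ ∑ i ∈ univ.filter (fun i : ι => θ * N < |∑ n ∈ Icc 1 N, g n * x i n|),
            (∑ n ∈ Icc 1 N, g n * x i n) ^ 2 := by
          refine sum_le_sum fun i hi => ?_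
          rw [mem_filter] at hi
          rw [← sq_abs (∑ n ∈ Icc 1 N, g n * x i n)]
          exact pow_le_pow_left₀ (by positivity) hi.2.le 2
      _ ≤ _ := sum_le_sum_of_subset_of_nonneg (filter_subset _ _) fun i _ _ => sq_nonneg _
  have h3 : ((univ.filter fun i : ι => θ * N < |∑ n ∈ Icc 1 N, g n * x i n|).card : ℝ) *
      (θ * N) ^ 2 ≤ 2 * (N : ℝ) ^ 2 := by
    refine h2.trans (h1.trans ?_)
    have : 0 ≤ (N : ℝ) ^ 2 := by positivity
    nlinarith
  rw [le_div_iff₀ (by positivity)]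
  rw [mul_pow, ← mul_assoc] at h3
  exact le_of_mul_le_mul_right h3 (by positivity)

end Pool.Agent.Run7.h103.SP
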