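import Mathlib
import Pool.Agent.Run7.h103.SP.Abs

set_option autoImplicit false

/-!
# Most of the tuples of members of a nearly orthogonal family take all patterns
-/

namespace Pool.Agent.Run7.h103.SP

open Finset

variable {ι : Type} [Fintype ι] {κ : Type} [Fintype κ] [DecidableEq κ]

/-- exchange of an entry -/
def swap (j₀ : κ) : Equiv.Perm ((κ → ι) × ι) where
  toFun p := (Function.update p.1 j₀ p.2, p.1 j₀)
  invFun p := (Function.update p.1 j₀ p.2, p.1 j₀)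
  left_inv p := by
    simp
  right_inv p := by
    simp

lemma double (j₀ : κ) (f : (κ → ι) → ℝ) :
    ∑ t, ∑ i, f (Function.update t j₀ i) = (Fintype.card ι : ℝ) * ∑ t, f t := by
  have h1 : ∑ t, ∑ i, f (Function.update t j₀ i) =
      ∑ p : (κ → ι) × ι, f (Function.update p.1 j₀ p.2) :=
    (Fintype.sum_prod_type (fun p : (κ → ι) × ι => f (Function.update p.1 j₀ p.2))).symm
  have h2 : ∑ p : (κ → ι) × ι, f (Function.update p.1 j₀ p.2) = ∑ p : (κ → ι) × ι, f p.1 :=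
    Fintype.sum_equiv (swap j₀) _ (fun p : (κ → ι) × ι => f p.1) fun p => rfl
  have h3 : ∑ p : (κ → ι) × ι, f p.1 = ∑ t : κ → ι, ∑ _i : ι, f t :=
    Fintype.sum_prod_type (fun p : (κ → ι) × ι => f p.1)
  rw [h1, h2, h3, mul_sum]
  refine sum_congr rfl fun t _ => ?_
  rw [sum_const, card_univ, nsmul_eq_mul]

open Classical in
/-- tuples with a large correlation of the entries in `J` with the weight `g` -/
noncomputable def badJ (x : ι → ℕ → ℝ) (g : ℕ → ℝ) (θ : ℝ) (N : ℕ) (J : Finset κ) : Finset (κ → ι) :=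
  univ.filter fun t => θ * N < |∑ n ∈ Icc 1 N, g n * ∏ j ∈ J, x (t j) n|

lemma mem_badJ {x : ι → ℕ → ℝ} {g : ℕ → ℝ} {θ : ℝ} {N : ℕ} {J : Finset κ} {t : κ → ι} :
    t ∈ badJ x g θ N J ↔ θ * N < |∑ n ∈ Icc 1 N, g n * ∏ j ∈ J, x (t j) n| := by
  unfold badJ
  rw [mem_filter]
  exact ⟨fun h => h.2, fun h => ⟨mem_univ _, h⟩⟩

theorem badJ_card {x : ι → ℕ → ℝ} (hx : ∀ i n, x i n ^ 2 = 1) {g : ℕ → ℝ} (hg : ∀ n, |g n| ≤ 1)
    {δ : ℝ} {N : ℕ} (hN : 1 ≤ N)
    (ho : Orth x δ N) (hδ : 0 ≤ δ) (hδ' : (Fintype.card ι : ℝ) ^ 2 * δ ≤ 1) {θ : ℝ} (hθ : 0 < θ)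
    {J : Finset κ} (hJ : J.Nonempty) :
    (Fintype.card ι : ℝ) * ((badJ x g θ N J).card : ℝ) ≤
      2 / θ ^ 2 * (Fintype.card ι : ℝ) ^ Fintype.card κ := by
  classical
  obtain ⟨j₀, hj₀⟩ := hJ
  have h1 : ((badJ x g θ N J).card : ℝ) =
      ∑ t : κ → ι, if θ * N < |∑ n ∈ Icc 1 N, g n * ∏ j ∈ J, x (t j) n| then (1 : ℝ) else 0 := by
    unfold badJ
    rw [sum_boole]
  rw [h1, ← double j₀]
  have h2 : ∀ t : κ → ι, ∑ i, (if θ * N < |∑ n ∈ Icc 1 N, g n * ∏ j ∈ J, x (Function.update t j₀ i j) n|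
      then (1 : ℝ) else 0) ≤ 2 / θ ^ 2 := by
    intro t
    have h3 : ∀ i n, g n * ∏ j ∈ J, x (Function.update t j₀ i j) n =
        (g n * ∏ j ∈ J.erase j₀, x (t j) n) * x i n := by
      intro i n
      have h4 : ∏ j ∈ J, x (Function.update t j₀ i j) n = (∏ j ∈ J.erase j₀, x (t j) n) * x i n := by
        rw [← mul_prod_erase _ _ hj₀, Function.update_self, mul_comm]
        congr 1
        refine prod_congr rfl fun j hj => ?_
        rw [Function.update_of_ne (ne_of_mem_erase hj)]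
      rw [h4, mul_assoc]
    simp only [h3]
    rw [sum_boole]
    refine few hx hN ho (fun n => ?_) hδ hδ' hθ
    rw [abs_mul, abs_prod]
    have h6 : ∏ j ∈ J.erase j₀, |x (t j) n| = 1 := by
      refine prod_eq_one fun j _ => ?_
      have h4 := hx (t j) n
      rw [← sq_abs] at h4
      have h5 := abs_nonneg (x (t j) n)
      nlinarith
    rw [h6, mul_one]
    exact hg n
  refine (sum_le_sum fun t _ => h2 t).trans ?_
  rw [sum_const, card_univ, Fintype.card_fun, nsmul_eq_mul]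
  push_cast
  rw [mul_comm]

open Classical in
/-- the tuples with a large correlation -/
noncomputable def bad (κ : Type) [Fintype κ] [DecidableEq κ] (x : ι → ℕ → ℝ) (g : ℕ → ℝ) (θ : ℝ) (N : ℕ) :
    Finset (κ → ι) :=
  (univ.filter fun J : Finset κ => J.Nonempty).biUnion fun J => badJ x g θ N J

lemma mem_bad {x : ι → ℕ → ℝ} {g : ℕ → ℝ} {θ : ℝ} {N : ℕ} {t : κ → ι} :
    t ∈ bad κ x g θ N ↔ ∃ J : Finset κ, J.Nonempty ∧ θ * N < |∑ n ∈ Icc 1 N, g n * ∏ j ∈ J, x (t j) n| := by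
  classical
  unfold bad
  simp only [mem_biUnion, mem_filter, mem_univ, true_and, mem_badJ]

theorem bad_card {x : ι → ℕ → ℝ} (hx : ∀ i n, x i n ^ 2 = 1) {g : ℕ → ℝ} (hg : ∀ n, |g n| ≤ 1)
    {δ : ℝ} {N : ℕ} (hN : 1 ≤ N)
    (ho : Orth x δ N) (hδ : 0 ≤ δ) (hδ' : (Fintype.card ι : ℝ) ^ 2 * δ ≤ 1) {θ : ℝ} (hθ : 0 < θ) :
    (Fintype.card ι : ℝ) * ((bad κ x g θ N).card : ℝ) ≤
      2 ^ Fintype.card κ * (2 / θ ^ 2 * (Fintype.card ι : ℝ) ^ Fintype.card κ) := by
  classical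
  unfold bad
  have h1 : (((univ.filter fun J : Finset κ => J.Nonempty).biUnion fun J => badJ x g θ N J).card : ℝ) ≤
      ∑ J ∈ univ.filter (fun J : Finset κ => J.Nonempty), ((badJ x g θ N J).card : ℝ) := by
    exact_mod_cast card_biUnion_le
  refine (mul_le_mul_of_nonneg_left h1 (Nat.cast_nonneg _)).trans ?_
  rw [mul_sum]
  refine (sum_le_sum fun J hJ => badJ_card hx hg hN ho hδ hδ' hθ (mem_filter.1 hJ).2).trans ?_
  rw [sum_const, nsmul_eq_mul]
  refine mul_le_mul_of_nonneg_right ?_ (by positivity)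
  have h2 : (univ.filter fun J : Finset κ => J.Nonempty).card ≤ 2 ^ Fintype.card κ := by
    refine (card_filter_le _ _).trans ?_
    rw [card_univ, Fintype.card_finset]
  exact_mod_cast h2

omit [Fintype ι] [DecidableEq κ] in
/-- the weighted number of occurrences of a pattern -/
lemma count {x : ι → ℕ → ℝ} (hx : ∀ i n, x i n ^ 2 = 1) (g : ℕ → ℝ) {N : ℕ} (t : κ → ι) (σ : κ → ℝ)
    (hσ : ∀ j, σ j ^ 2 = 1) [DecidablePred fun n : ℕ => ∀ j, x (t j) n = σ j] :
    (2 : ℝ) ^ Fintype.card κ * (∑ n ∈ (Icc 1 N).filter (fun n => ∀ j, x (t j) n = σ j), g n) =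
      ∑ J : Finset κ, (∏ j ∈ J, σ j) * ∑ n ∈ Icc 1 N, g n * ∏ j ∈ J, x (t j) n := by
  classical
  have h1 : ∀ n, (2 : ℝ) ^ Fintype.card κ * (if ∀ j, x (t j) n = σ j then g n else 0) =
      g n * ∏ j, (1 + σ j * x (t j) n) := by
    intro n
    split_ifs with h
    · have : ∀ j, 1 + σ j * x (t j) n = 2 := by
        intro j
        rw [h j, ← sq, hσ]
        norm_num
      simp only [this, prod_const, card_univ]
      rw [mul_comm]
    · push Not at h
      obtain ⟨j, hj⟩ := h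
      rw [mul_zero]
      symm
      rw [prod_eq_zero (mem_univ j), mul_zero]
      have h2 := hx (t j) n
      have h3 := hσ j
      have h4 : (x (t j) n - σ j) * (x (t j) n + σ j) = 0 := by ring_nf; linarith
      rcases mul_eq_zero.1 h4 with h5 | h5
      · exact absurd (sub_eq_zero.1 h5) hj
      · have h6 : x (t j) n = - σ j := by linarith
        rw [h6]
        have : σ j * - σ j = -1 := by nlinarith
        linarith
  rw [sum_filter, mul_sum]
  simp only [h1, prod_one_add, prod_mul_distrib, mul_sum]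
  rw [sum_comm]
  rw [powerset_univ]
  refine sum_congr rfl fun J _ => ?_
  refine sum_congr rfl fun n _ => ?_
  ring

omit [Fintype ι] [DecidableEq κ] in
/-- equidistribution of the patterns -/
theorem equi {x : ι → ℕ → ℝ} (hx : ∀ i n, x i n ^ 2 = 1) (g : ℕ → ℝ) {N : ℕ} (t : κ → ι) (σ : κ → ℝ)
    (hσ : ∀ j, σ j ^ 2 = 1) {ε : ℝ} (hε : 0 ≤ ε)
    (ht : ∀ J : Finset κ, J.Nonempty →
      |∑ n ∈ Icc 1 N, g n * ∏ j ∈ J, x (t j) n| ≤ ε / 2 ^ Fintype.card κ * N)
    [DecidablePred fun n : ℕ => ∀ j, x (t j) n = σ j] :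
    |(∑ n ∈ (Icc 1 N).filter (fun n => ∀ j, x (t j) n = σ j), g n) -
      (∑ n ∈ Icc 1 N, g n) / 2 ^ Fintype.card κ| ≤ ε * (N / 2 ^ Fintype.card κ) := by
  classical
  have h1 := count hx g (N := N) t σ hσ
  set p : ℝ := ∑ n ∈ (Icc 1 N).filter (fun n => ∀ j, x (t j) n = σ j), g n with hp
  have h2 : (2 : ℝ) ^ Fintype.card κ * p - ∑ n ∈ Icc 1 N, g n =
      ∑ J ∈ (univ : Finset (Finset κ)).erase ∅,
        (∏ j ∈ J, σ j) * ∑ n ∈ Icc 1 N, g n * ∏ j ∈ J, x (t j) n := by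
    rw [h1, ← add_sum_erase _ _ (mem_univ (∅ : Finset κ))]
    simp
  have hσa : ∀ j, |σ j| = 1 := by
    intro j
    have h3 := hσ j
    rw [← sq_abs] at h3
    have := abs_nonneg (σ j)
    nlinarith
  have h3 : |(2 : ℝ) ^ Fintype.card κ * p - ∑ n ∈ Icc 1 N, g n| ≤
      2 ^ Fintype.card κ * (ε / 2 ^ Fintype.card κ * N) := by
    rw [h2]
    refine (abs_sum_le_sum_abs _ _).trans ?_
    refine (sum_le_sum (g := fun _ => ε / 2 ^ Fintype.card κ * N) fun J hJ => ?_).trans ?_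
    · rw [abs_mul, abs_prod, prod_congr rfl (fun j _ => hσa j), prod_const_one, one_mul]
      exact ht J (nonempty_iff_ne_empty.2 (ne_of_mem_erase hJ))
    · rw [sum_const, nsmul_eq_mul]
      refine mul_le_mul_of_nonneg_right ?_ (by positivity)
      have h4 : ((univ : Finset (Finset κ)).erase ∅).card ≤ 2 ^ Fintype.card κ := by
        refine (card_le_card (erase_subset _ _)).trans ?_
        rw [card_univ, Fintype.card_finset]
      exact_mod_cast h4
  have h5 : (0 : ℝ) < 2 ^ Fintype.card κ := by positivity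
  have h6 : p - (∑ n ∈ Icc 1 N, g n) / 2 ^ Fintype.card κ =
      ((2 : ℝ) ^ Fintype.card κ * p - ∑ n ∈ Icc 1 N, g n) / 2 ^ Fintype.card κ := by
    field_simp
  rw [h6, abs_div, abs_of_pos h5, div_le_iff₀ h5]
  refine h3.trans (le_of_eq ?_)
  field_simp

end Pool.Agent.Run7.h103.SP
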