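import Mathlib

set_option autoImplicit false

/-!
# A family of `K` functions with values `±1`, nearly orthogonal and with small triple correlations, takes `2K`
# patterns with positive frequency
-/

namespace Pool.Agent.Run7.h103.SP

open Finset

variable {ι : Type} [Fintype ι] [DecidableEq ι]

/-- the `2K` functions: the members, and the products with a fixed member -/
def fam (i₀ : ι) (σ : ι → ℤ) : ι ⊕ ι → ℝ
  | Sum.inl i => (σ i : ℝ)
  | Sum.inr i => (σ i₀ : ℝ) * (σ i : ℝ)

/-- the patterns with frequency at least `c` -/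
noncomputable def freq (y : ι → ℕ → ℤ) (c : ℝ) (N : ℕ) : Finset (ι → ℤ) :=
  ((Icc 1 N).image fun n i => y i n).filter fun σ =>
    c * N ≤ (((Icc 1 N).filter fun n => (fun i => y i n) = σ).card : ℝ)

omit [DecidableEq ι] in
lemma sq_sum_le (v : ι ⊕ ι → ℝ) (w : ι ⊕ ι → ℝ) (hw : ∀ k, |w k| ≤ 1) :
    (∑ k, v k * w k) ^ 2 ≤ (2 * Fintype.card ι : ℝ) * ∑ k, v k ^ 2 := by
  refine (sum_mul_sq_le_sq_mul_sq _ _ _).trans ?_
  rw [mul_comm]
  refine mul_le_mul_of_nonneg_right ?_ (sum_nonneg fun _ _ => sq_nonneg _)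
  calc ∑ k, w k ^ 2 ≤ ∑ _k : ι ⊕ ι, (1 : ℝ) := sum_le_sum fun k _ => by
        rw [← sq_abs]
        have := hw k
        have := abs_nonneg (w k)
        nlinarith
    _ = _ := by
        simp only [sum_const, card_univ, Fintype.card_sum, nsmul_eq_mul, mul_one]
        push_cast
        ring

theorem twoK (y : ι → ℕ → ℤ) (hy : ∀ i n, y i n = 1 ∨ y i n = -1) (i₀ : ι) {δ : ℝ} {N : ℕ}
    (hN : 1 ≤ N) (h2 : ∀ i j, i ≠ j → |∑ n ∈ Icc 1 N, (y i n : ℝ) * (y j n : ℝ)| ≤ δ * N)
    (h3 : ∀ i j, |∑ n ∈ Icc 1 N, (y i₀ n : ℝ) * (y i n : ℝ) * (y j n : ℝ)| ≤ δ * N)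
    (hδ0 : 0 ≤ δ) (hδ : 4 * (Fintype.card ι : ℝ) * δ ≤ 1) :
    2 * Fintype.card ι ≤ (freq y (1 / (8 * Fintype.card ι * 2 ^ Fintype.card ι)) N).card := by
  classical
  set K : ℝ := (Fintype.card ι : ℝ) with hK
  have hK1 : 1 ≤ K := by
    have : 0 < Fintype.card ι := Fintype.card_pos_iff.2 ⟨i₀⟩
    rw [hK]
    exact_mod_cast this
  set c : ℝ := 1 / (8 * K * 2 ^ Fintype.card ι) with hc
  have hc0 : 0 < c := by positivity
  by_contra hcon
  push Not at hcon
  set Q := freq y c N with hQ
  have hsq : ∀ i n, (y i n : ℝ) * (y i n : ℝ) = 1 := by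
    intro i n
    rcases hy i n with h | h <;> rw [h] <;> norm_num
  have habs : ∀ i n, |(y i n : ℝ)| = 1 := by
    intro i n
    rcases hy i n with h | h <;> rw [h] <;> norm_num
  -- a nonzero vector in the kernel
  let T : (ι ⊕ ι → ℝ) →ₗ[ℝ] (Q → ℝ) :=
    { toFun := fun v σ => ∑ k, v k * fam i₀ σ.1 k
      map_add' := fun v w => by
        funext σ
        simp only [Pi.add_apply, add_mul, sum_add_distrib]
      map_smul' := fun r v => by
        funext σ
        simp only [Pi.smul_apply, smul_eq_mul, RingHom.id_apply, mul_sum, mul_assoc] }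
  have hker : LinearMap.ker T ≠ ⊥ := by
    refine LinearMap.ker_ne_bot_of_finrank_lt ?_
    rw [Module.finrank_fintype_fun_eq_card, Module.finrank_fintype_fun_eq_card, Fintype.card_coe,
      Fintype.card_sum]
    omega
  obtain ⟨v, hvk, hv0⟩ := Submodule.exists_mem_ne_zero_of_ne_bot hker
  have hv : ∀ σ ∈ Q, ∑ k, v k * fam i₀ σ k = 0 := by
    intro σ hσ
    exact congrFun (LinearMap.mem_ker.1 hvk) ⟨σ, hσ⟩
  set s : ℝ := ∑ k, v k ^ 2 with hs
  have hs0 : 0 < s := by
    obtain ⟨k, hk⟩ : ∃ k, v k ≠ 0 := by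
      by_contra hall
      push Not at hall
      exact hv0 (funext hall)
    have h4 : v k ^ 2 ≤ s := single_le_sum (f := fun k => v k ^ 2) (fun _ _ => sq_nonneg _) (mem_univ k)
    have h5 : 0 < v k ^ 2 := by positivity
    linarith
  set pat : ℕ → ι → ℤ := fun n i => y i n with hpat
  have hfam : ∀ n k, |fam i₀ (pat n) k| ≤ 1 := by
    rintro n (i | i)
    · exact le_of_eq (habs i n)
    · change |(y i₀ n : ℝ) * (y i n : ℝ)| ≤ 1
      rw [abs_mul, habs, habs, one_mul]
  have hNr : (0 : ℝ) < N := by exact_mod_cast hN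
  -- Gram
  have hgram : ∀ k l, |∑ n ∈ Icc 1 N, fam i₀ (pat n) k * fam i₀ (pat n) l - (if k = l then (N : ℝ) else 0)|
      ≤ δ * N := by
    have hnn : 0 ≤ δ * N := by positivity
    have hone : ∑ n ∈ Icc 1 N, (1 : ℝ) = N := by simp
    rintro (i | i) (j | j)
    · by_cases hij : i = j
      · subst hij
        rw [if_pos rfl]
        have : ∑ n ∈ Icc 1 N, fam i₀ (pat n) (Sum.inl i) * fam i₀ (pat n) (Sum.inl i) = N := by
          rw [← hone]
          exact sum_congr rfl fun n _ => hsq i n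
        rw [this, sub_self, abs_zero]
        exact hnn
      · rw [if_neg (fun h => hij (Sum.inl_injective h)), sub_zero]
        exact h2 i j hij
    · rw [if_neg Sum.inl_ne_inr, sub_zero]
      have : ∑ n ∈ Icc 1 N, fam i₀ (pat n) (Sum.inl i) * fam i₀ (pat n) (Sum.inr j) =
          ∑ n ∈ Icc 1 N, (y i₀ n : ℝ) * (y i n : ℝ) * (y j n : ℝ) := by
        refine sum_congr rfl fun n _ => ?_
        change (y i n : ℝ) * ((y i₀ n : ℝ) * (y j n : ℝ)) = _
        ring
      rw [this]
      exact h3 i j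
    · rw [if_neg Sum.inr_ne_inl, sub_zero]
      have : ∑ n ∈ Icc 1 N, fam i₀ (pat n) (Sum.inr i) * fam i₀ (pat n) (Sum.inl j) =
          ∑ n ∈ Icc 1 N, (y i₀ n : ℝ) * (y i n : ℝ) * (y j n : ℝ) := by
        refine sum_congr rfl fun n _ => ?_
        change ((y i₀ n : ℝ) * (y i n : ℝ)) * (y j n : ℝ) = _
        ring
      rw [this]
      exact h3 i j
    · have hcg : ∑ n ∈ Icc 1 N, fam i₀ (pat n) (Sum.inr i) * fam i₀ (pat n) (Sum.inr j) =
          ∑ n ∈ Icc 1 N, (y i n : ℝ) * (y j n : ℝ) := by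
        refine sum_congr rfl fun n _ => ?_
        change ((y i₀ n : ℝ) * (y i n : ℝ)) * ((y i₀ n : ℝ) * (y j n : ℝ)) = _
        have := hsq i₀ n
        linear_combination (y i n : ℝ) * (y j n : ℝ) * this
      rw [hcg]
      by_cases hij : i = j
      · subst hij
        rw [if_pos rfl]
        have : ∑ n ∈ Icc 1 N, (y i n : ℝ) * (y i n : ℝ) = N := by
          rw [← hone]
          exact sum_congr rfl fun n _ => hsq i n
        rw [this, sub_self, abs_zero]
        exact hnn
      · rw [if_neg (fun h => hij (Sum.inr_injective h)), sub_zero]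
        exact h2 i j hij
  set W : ℝ := ∑ n ∈ Icc 1 N, (∑ k, v k * fam i₀ (pat n) k) ^ 2 with hW
  have hWG : W = ∑ k, ∑ l, v k * v l * ∑ n ∈ Icc 1 N, fam i₀ (pat n) k * fam i₀ (pat n) l := by
    rw [hW]
    calc ∑ n ∈ Icc 1 N, (∑ k, v k * fam i₀ (pat n) k) ^ 2
        = ∑ n ∈ Icc 1 N, ∑ k, ∑ l, v k * v l * (fam i₀ (pat n) k * fam i₀ (pat n) l) := by
          refine sum_congr rfl fun n _ => ?_
          rw [sq, sum_mul_sum]
          refine sum_congr rfl fun i _ => sum_congr rfl fun j _ => ?_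
          ring
      _ = _ := by
          rw [sum_comm]
          refine sum_congr rfl fun i _ => ?_
          rw [sum_comm]
          refine sum_congr rfl fun j _ => ?_
          exact (mul_sum _ _ _).symm
  have habsv : (∑ k, |v k|) ^ 2 ≤ 2 * K * s := by
    have h4 := sq_sum_le (fun k => |v k|) (fun _ => (1 : ℝ)) (fun _ => by simp)
    simp only [mul_one, sq_abs] at h4
    exact h4
  have hlow : N * s - δ * N * (2 * K * s) ≤ W := by
    have h4 : W - N * s = ∑ k, ∑ l, v k * v l *
        (∑ n ∈ Icc 1 N, fam i₀ (pat n) k * fam i₀ (pat n) l - (if k = l then (N : ℝ) else 0)) := by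
      rw [hWG]
      simp only [mul_sub, sum_sub_distrib]
      congr 1
      simp only [mul_ite, mul_zero, sum_ite_eq, mem_univ, if_true]
      rw [hs, mul_sum]
      refine sum_congr rfl fun k _ => ?_
      ring
    have h5 : |W - N * s| ≤ δ * N * (2 * K * s) := by
      rw [h4]
      refine (abs_sum_le_sum_abs _ _).trans ?_
      refine (sum_le_sum fun k _ => abs_sum_le_sum_abs _ _).trans ?_
      refine (sum_le_sum (g := fun k => ∑ l, |v k| * |v l| * (δ * N)) fun k _ => sum_le_sum fun l _ => ?_).trans ?_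
      · rw [abs_mul, abs_mul]
        exact mul_le_mul_of_nonneg_left (hgram k l) (by positivity)
      · have h6 : ∑ k, ∑ l, |v k| * |v l| * (δ * N) = (∑ k, |v k|) ^ 2 * (δ * N) := by
          rw [sq, sum_mul_sum, sum_mul]
          refine sum_congr rfl fun k _ => ?_
          rw [sum_mul]
        rw [h6, mul_comm]
        exact mul_le_mul_of_nonneg_left habsv (by positivity)
    have := (abs_le.1 h5).1
    linarith
  -- upper bound
  have hup : W ≤ 2 ^ Fintype.card ι * (c * N) * (2 * K * s) := by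
    have h4 : W ≤ ∑ n ∈ Icc 1 N, if pat n ∈ Q then (0 : ℝ) else 2 * K * s := by
      rw [hW]
      refine sum_le_sum fun n _ => ?_
      split_ifs with h
      · rw [hv _ h]
        norm_num
      · exact sq_sum_le _ _ (hfam n)
    have h5 : ∑ n ∈ Icc 1 N, (if pat n ∈ Q then (0 : ℝ) else 2 * K * s) =
        (((Icc 1 N).filter fun n => pat n ∉ Q).card : ℝ) * (2 * K * s) := by
      rw [← sum_filter_add_sum_filter_not (Icc 1 N) (fun n => pat n ∈ Q)]
      rw [sum_congr rfl (g := fun _ => (0 : ℝ)) (fun n hn => if_pos (mem_filter.1 hn).2), sum_const_zero,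
        zero_add, sum_congr rfl (g := fun _ => 2 * K * s) (fun n hn => if_neg (mem_filter.1 hn).2),
        sum_const, nsmul_eq_mul]
    rw [h5] at h4
    refine h4.trans (mul_le_mul_of_nonneg_right ?_ (by positivity))
    -- number of places with a rare pattern
    set R := ((Icc 1 N).image pat).filter (fun σ => σ ∉ Q) with hR
    have h6 : ((Icc 1 N).filter fun n => pat n ∉ Q) ⊆ R.biUnion fun σ => (Icc 1 N).filter fun n => pat n = σ := by
      intro n hn
      rw [mem_filter] at hn
      rw [mem_biUnion]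
      exact ⟨pat n, mem_filter.2 ⟨mem_image_of_mem _ hn.1, hn.2⟩, mem_filter.2 ⟨hn.1, rfl⟩⟩
    have h7 : (((Icc 1 N).filter fun n => pat n ∉ Q).card : ℝ) ≤
        ∑ σ ∈ R, (((Icc 1 N).filter fun n => pat n = σ).card : ℝ) := by
      exact_mod_cast (card_le_card h6).trans card_biUnion_le
    refine h7.trans ?_
    refine (sum_le_sum (g := fun _ => c * (N : ℝ)) fun σ hσ => ?_).trans ?_
    · rw [hR, mem_filter] at hσ
      by_contra h8
      push Not at h8
      exact hσ.2 (mem_filter.2 ⟨hσ.1, h8.le⟩)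
    · rw [sum_const, nsmul_eq_mul]
      refine mul_le_mul_of_nonneg_right ?_ (by positivity)
      have h8 : R ⊆ Fintype.piFinset fun _ : ι => ({1, -1} : Finset ℤ) := by
        intro σ hσ
        rw [hR, mem_filter, mem_image] at hσ
        obtain ⟨⟨n, -, rfl⟩, -⟩ := hσ
        rw [Fintype.mem_piFinset]
        intro i
        rw [mem_insert, mem_singleton]
        exact hy i n
      have h9 := card_le_card h8
      rw [Fintype.card_piFinset] at h9
      have h10 : ∏ _i : ι, ({1, -1} : Finset ℤ).card = 2 ^ Fintype.card ι := by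
        rw [prod_const, card_univ]
        rfl
      rw [h10] at h9
      exact_mod_cast h9
  have h4 : (2 : ℝ) ^ Fintype.card ι * (c * N) * (2 * K * s) = N * s / 4 := by
    rw [hc]
    field_simp
    norm_num
  rw [h4] at hup
  have h5 : δ * N * (2 * K * s) ≤ N * s / 2 := by
    have h6 : 2 * K * δ ≤ 1 / 2 := by linarith
    have h7 : 0 ≤ N * s := by positivity
    nlinarith
  have h8 : 0 < N * s := by positivity
  linarith

end Pool.Agent.Run7.h103.SP
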