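import Mathlib
import Pool.Agent.Run7.h103.SP.Tup

set_option autoImplicit false

/-!
# Infinite families: an infinite subfamily on which all patterns are taken
-/

namespace Pool.Agent.Run7.h103.SP

open Finset Filter Topology

/-- the average up to `N` -/
noncomputable def avg (g : ℕ → ℝ) (N : ℕ) : ℝ := (∑ n ∈ Icc 1 N, g n) / N

lemma avg_le {g : ℕ → ℝ} (hg : ∀ n, |g n| ≤ 1) (N : ℕ) : |avg g N| ≤ 1 := by
  unfold avg
  rcases Nat.eq_zero_or_pos N with h | h
  · subst h; simp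
  · have hN : (0 : ℝ) < N := by exact_mod_cast h
    rw [abs_div, abs_of_pos hN, div_le_one hN]
    refine (abs_sum_le_sum_abs _ _).trans ?_
    refine (sum_le_sum fun n _ => hg n).trans ?_
    simp

/-- the limit of the averages along an ultrafilter -/
noncomputable def cc (U : Ultrafilter ℕ) (g : ℕ → ℝ) : ℝ := limUnder (U : Filter ℕ) (avg g)

lemma cc_tendsto (U : Ultrafilter ℕ) {g : ℕ → ℝ} (hg : ∀ n, |g n| ≤ 1) :
    Tendsto (avg g) (U : Filter ℕ) (𝓝 (cc U g)) := by
  refine tendsto_nhds_limUnder ?_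
  have h1 : Set.Icc (-1 : ℝ) 1 ∈ (U.map (avg g) : Filter ℝ) := by
    rw [Ultrafilter.coe_map, Filter.mem_map]
    refine Filter.univ_mem' fun N => ?_
    exact abs_le.1 (avg_le hg N)
  obtain ⟨c, -, hc⟩ := isCompact_Icc.ultrafilter_le_nhds (U.map (avg g)) (Filter.le_principal_iff.2 h1)
  exact ⟨c, hc⟩

/-- orthogonality in the limit -/
def OrthL {X : Type} (U : Ultrafilter ℕ) (x : X → ℕ → ℝ) (A : Set X) : Prop :=
  ∀ p ∈ A, ∀ q ∈ A, p ≠ q → ∀ δ : ℝ, 0 < δ →
    ∀ᶠ N in (U : Filter ℕ), |∑ n ∈ Icc 1 N, x p n * x q n| ≤ δ * N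

variable {X : Type} [DecidableEq X] {U : Ultrafilter ℕ} {x : X → ℕ → ℝ} {A : Set X}

omit [DecidableEq X] in
lemma abs_one (hx : ∀ i n, x i n ^ 2 = 1) (i : X) (n : ℕ) : |x i n| = 1 := by
  have h4 := hx i n
  rw [← sq_abs] at h4
  have h5 := abs_nonneg (x i n)
  nlinarith

omit [DecidableEq X] in
lemma prod_le (hx : ∀ i n, x i n ^ 2 = 1) (J : Finset X) (n : ℕ) : |∏ j ∈ J, x j n| ≤ 1 := by
  rw [abs_prod]
  exact le_of_eq (prod_eq_one fun j _ => abs_one hx j n)

omit [DecidableEq X] in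
lemma fewlim (hU : (U : Filter ℕ) ≤ atTop) (hx : ∀ i n, x i n ^ 2 = 1) (ho : OrthL U x A)
    {g : ℕ → ℝ} (hg : ∀ n, |g n| ≤ 1) {θ : ℝ} (hθ : 0 < θ) :
    {p | p ∈ A ∧ θ < |cc U (fun n => g n * x p n)|}.Finite := by
  classical
  by_contra hcon
  have hinf : {p | p ∈ A ∧ θ < |cc U (fun n => g n * x p n)|}.Infinite := hcon
  obtain ⟨m, hm⟩ := exists_nat_gt (2 / θ ^ 2)
  obtain ⟨S, hS, hcard⟩ := hinf.exists_subset_card_eq m
  set δ : ℝ := 1 / ((m : ℝ) ^ 2 + 1) with hδ
  have hδ0 : 0 < δ := by positivity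
  have e1 : ∀ᶠ N in (U : Filter ℕ), 1 ≤ N := hU (eventually_ge_atTop 1)
  have e2 : ∀ᶠ N in (U : Filter ℕ), ∀ p ∈ S, ∀ q ∈ S, p ≠ q →
      |∑ n ∈ Icc 1 N, x p n * x q n| ≤ δ * N := by
    refine (Filter.eventually_all_finset S).2 fun p hp => ?_
    refine (Filter.eventually_all_finset S).2 fun q hq => ?_
    by_cases hpq : p = q
    · exact Filter.Eventually.of_forall fun N h => absurd hpq h
    · filter_upwards [ho p (hS hp).1 q (hS hq).1 hpq δ hδ0] with N hN _
      exact hN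
  have e3 : ∀ᶠ N in (U : Filter ℕ), ∀ p ∈ S, θ < |avg (fun n => g n * x p n) N| := by
    refine (Filter.eventually_all_finset S).2 fun p hp => ?_
    have hb : ∀ n, |g n * x p n| ≤ 1 := fun n => by
      rw [abs_mul, abs_one hx, mul_one]; exact hg n
    exact ((cc_tendsto U hb).abs).eventually (lt_mem_nhds (hS hp).2)
  obtain ⟨N, h1, h2, h3⟩ := (e1.and (e2.and e3)).exists
  have hN : (0 : ℝ) < N := by exact_mod_cast h1
  have h4 := few (ι := S) (x := fun p => x p.1) (δ := δ) (N := N) (g := g) (fun p n => hx p.1 n) h1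
    (fun p q hpq => h2 p.1 p.2 q.1 q.2 fun h => hpq (Subtype.ext h)) hg hδ0.le (by
      rw [Fintype.card_coe, hcard, hδ, mul_one_div, div_le_one (by positivity)]
      linarith) hθ
  have h5 : (univ.filter fun i : S => θ * N < |∑ n ∈ Icc 1 N, g n * x i.1 n|) = univ := by
    refine filter_true_of_mem fun p _ => ?_
    have h6 := h3 p.1 p.2
    unfold avg at h6
    rw [abs_div, abs_of_pos hN, lt_div_iff₀ hN] at h6
    exact h6
  rw [h5, card_univ, Fintype.card_coe, hcard] at h4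
  linarith

/-- the total correlation of a finite set -/
noncomputable def tot (U : Ultrafilter ℕ) (x : X → ℕ → ℝ) (S : Finset X) : ℝ :=
  ∑ J ∈ S.powerset.erase ∅, |cc U (fun n => ∏ j ∈ J, x j n)|

lemma tot_mono {S T : Finset X} (h : S ⊆ T) : tot U x S ≤ tot U x T := by
  unfold tot
  refine sum_le_sum_of_subset_of_nonneg ?_ fun _ _ _ => abs_nonneg _
  exact erase_subset_erase _ (powerset_mono.2 h)

lemma tot_insert {S : Finset X} {a : X} (ha : a ∉ S) :
    tot U x (insert a S) = tot U x S + ∑ J ∈ S.powerset, |cc U (fun n => (∏ j ∈ J, x j n) * x a n)| := by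
  unfold tot
  have h1 : ∀ (B : Finset (Finset X)) (hB : ∅ ∈ B) (f : Finset X → ℝ),
      ∑ J ∈ B.erase ∅, f J = ∑ J ∈ B, f J - f ∅ := fun B hB f => by
    rw [← add_sum_erase B f hB]; ring
  rw [h1 _ (empty_mem_powerset _), h1 _ (empty_mem_powerset _), sum_powerset_insert ha]
  have h2 : ∀ J ∈ S.powerset, |cc U (fun n => ∏ j ∈ insert a J, x j n)| =
      |cc U (fun n => (∏ j ∈ J, x j n) * x a n)| := by
    intro J hJ
    have h3 : a ∉ J := fun h => ha (mem_powerset.1 hJ h)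
    congr 2
    funext n
    rw [prod_insert h3, mul_comm]
  rw [sum_congr rfl h2]
  ring

omit [DecidableEq X] in
/-- the next element -/
lemma next (hU : (U : Filter ℕ) ≤ atTop) (hx : ∀ i n, x i n ^ 2 = 1) (ho : OrthL U x A)
    (hA : A.Infinite) (S : Finset X) {η : ℝ} (hη : 0 < η) :
    ∃ a ∈ A, a ∉ S ∧ ∀ J ∈ S.powerset, |cc U (fun n => (∏ j ∈ J, x j n) * x a n)| ≤ η := by
  have h1 : (⋃ J ∈ S.powerset, {p | p ∈ A ∧ η < |cc U (fun n => (∏ j ∈ J, x j n) * x p n)|}).Finite :=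
    S.powerset.finite_toSet.biUnion fun J _ => fewlim hU hx ho (prod_le hx J) hη
  obtain ⟨a, ha, ha'⟩ := (hA.sdiff (h1.union S.finite_toSet)).nonempty
  rw [Set.mem_union, not_or] at ha'
  refine ⟨a, ha, fun h => ha'.2 h, fun J hJ => ?_⟩
  by_contra hcon
  push Not at hcon
  exact ha'.1 (Set.mem_biUnion (show J ∈ (S.powerset : Set (Finset X)) from hJ) ⟨ha, hcon⟩)

/-- **an infinite subfamily with small total correlations** -/
theorem subfamily (hU : (U : Filter ℕ) ≤ atTop) (hx : ∀ i n, x i n ^ 2 = 1) (ho : OrthL U x A)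
    (hA : A.Infinite) {ε : ℝ} (hε : 0 < ε) :
    ∃ B ⊆ A, B.Infinite ∧ ∀ F : Finset X, (F : Set X) ⊆ B → tot U x F ≤ ε / 2 := by
  classical
  choose nx h1 h2 h3 using fun (S : Finset X) (k : ℕ) =>
    next hU hx ho hA S (η := ε / 4 ^ (k + 1)) (by positivity)
  obtain ⟨T, hT0, hTs⟩ : ∃ T : ℕ → Finset X, T 0 = ∅ ∧
      ∀ k, T (k + 1) = insert (nx (T k) k) (T k) :=
    ⟨fun k => Nat.rec ∅ (fun k S => insert (nx S k) S) k, rfl, fun _ => rfl⟩
  have hmono : Monotone T := monotone_nat_of_le_succ fun k => by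
    rw [hTs]; exact subset_insert _ _
  have hcard : ∀ k, (T k).card = k := by
    intro k
    induction k with
    | zero => rw [hT0, card_empty]
    | succ k ih => rw [hTs, card_insert_of_notMem (h2 _ _), ih]
  have hTA : ∀ k, (T k : Set X) ⊆ A := by
    intro k
    induction k with
    | zero => rw [hT0]; simp
    | succ k ih =>
      rw [hTs, coe_insert]
      exact Set.insert_subset (h1 _ _) ih
  have htot : ∀ k, tot U x (T k) ≤ ε / 2 * (1 - (1 / 2) ^ k) := by
    intro k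
    induction k with
    | zero =>
      rw [hT0]
      unfold tot
      simp
    | succ k ih =>
      rw [hTs, tot_insert (h2 _ _)]
      have h4 : ∑ J ∈ (T k).powerset, |cc U (fun n => (∏ j ∈ J, x j n) * x (nx (T k) k) n)| ≤
          2 ^ k * (ε / 4 ^ (k + 1)) := by
        refine (sum_le_sum fun J hJ => h3 (T k) k J hJ).trans ?_
        rw [sum_const, card_powerset, hcard, nsmul_eq_mul]
        push_cast
        exact le_rfl
      have h5 : (2 : ℝ) ^ k * (ε / 4 ^ (k + 1)) = ε / 4 * (1 / 2) ^ k := by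
        rw [show (4 : ℝ) = 2 * 2 by norm_num, mul_pow, one_div, inv_pow, pow_succ]
        field_simp
      rw [h5] at h4
      rw [pow_succ]
      linarith
  refine ⟨⋃ k, (T k : Set X), Set.iUnion_subset hTA, ?_, fun F hF => ?_⟩
  · intro hfin
    obtain ⟨k, hk⟩ : ∃ k, hfin.toFinset.card < k := ⟨_, Nat.lt_succ_self _⟩
    have h4 : T k ⊆ hfin.toFinset := fun a ha => by
      rw [Set.Finite.mem_toFinset]
      exact Set.mem_iUnion.2 ⟨k, ha⟩
    have := card_le_card h4
    rw [hcard] at this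
    omega
  · obtain ⟨k, hk⟩ : ∃ k, F ⊆ T k := by
      have h4 : ∀ a ∈ F, ∃ k, a ∈ T k := fun a ha => by
        obtain ⟨k, hk⟩ := Set.mem_iUnion.1 (hF ha)
        exact ⟨k, hk⟩
      choose! kk hkk using h4
      exact ⟨F.sup kk, fun a ha => hmono (le_sup (f := kk) ha) (hkk a ha)⟩
    refine (tot_mono hk).trans ((htot k).trans ?_)
    have : 0 ≤ ε / 2 * (1 / 2 : ℝ) ^ k := by positivity
    linarith

end Pool.Agent.Run7.h103.SP
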