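import Mathlib
import Pool.Agent.Run7.h103.SP.Lim

set_option autoImplicit false

/-!
# Infinite families: frequencies of the patterns on an infinite subfamily along a sequence of scales
-/

namespace Pool.Agent.Run7.h103.SP

open Finset Filter Topology

variable {X : Type} {x : X → ℕ → ℝ}

open Classical in
/-- the number of the occurrences of the pattern `σ` on `F` up to `N` -/
noncomputable def occ (x : X → ℕ → ℝ) (F : Finset X) (σ : X → ℝ) (N : ℕ) : ℕ :=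
  ((Icc 1 N).filter fun n => ∀ p ∈ F, x p n = σ p).card

lemma countF (hx : ∀ i n, x i n ^ 2 = 1) (F : Finset X) (σ : X → ℝ) (hσ : ∀ j, σ j ^ 2 = 1)
    (N : ℕ) : (2 : ℝ) ^ F.card * (occ x F σ N : ℝ) =
      ∑ J ∈ F.powerset, (∏ j ∈ J, σ j) * ∑ n ∈ Icc 1 N, ∏ j ∈ J, x j n := by
  classical
  have h1 : ∀ n, (2 : ℝ) ^ F.card * (if ∀ p ∈ F, x p n = σ p then (1 : ℝ) else 0) =
      ∏ j ∈ F, (1 + σ j * x j n) := by
    intro n
    split_ifs with h
    · rw [mul_one]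
      have : ∀ j ∈ F, 1 + σ j * x j n = 2 := by
        intro j hj
        rw [h j hj, ← sq, hσ]
        norm_num
      rw [prod_congr rfl this, prod_const]
    · push Not at h
      obtain ⟨j, hjF, hj⟩ := h
      rw [mul_zero]
      symm
      refine prod_eq_zero hjF ?_
      have h2 := hx j n
      have h3 := hσ j
      have h4 : (x j n - σ j) * (x j n + σ j) = 0 := by ring_nf; linarith
      rcases mul_eq_zero.1 h4 with h5 | h5
      · exact absurd (sub_eq_zero.1 h5) hj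
      · have h6 : x j n = - σ j := by linarith
        rw [h6]
        have : σ j * - σ j = -1 := by nlinarith
        linarith
  have h2 : (occ x F σ N : ℝ) = ∑ n ∈ Icc 1 N, if ∀ p ∈ F, x p n = σ p then (1 : ℝ) else 0 := by
    unfold occ
    rw [sum_boole]
  rw [h2, mul_sum]
  simp only [h1, prod_one_add, prod_mul_distrib]
  rw [sum_comm]
  refine sum_congr rfl fun J _ => ?_
  rw [mul_sum]

/-- equidistribution of the patterns -/
theorem equiF [DecidableEq X] (hx : ∀ i n, x i n ^ 2 = 1) (F : Finset X) {N : ℕ} {ε : ℝ}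
    (ht : ∑ J ∈ F.powerset.erase ∅, |∑ n ∈ Icc 1 N, ∏ j ∈ J, x j n| ≤ ε * N)
    (σ : X → ℝ) (hσ : ∀ j, σ j ^ 2 = 1) :
    |(occ x F σ N : ℝ) - N / 2 ^ F.card| ≤ ε * (N / 2 ^ F.card) := by
  classical
  have h1 := countF hx F σ hσ N
  set p : ℝ := (occ x F σ N : ℝ) with hp
  have h2 : (2 : ℝ) ^ F.card * p - N =
      ∑ J ∈ F.powerset.erase ∅, (∏ j ∈ J, σ j) * ∑ n ∈ Icc 1 N, ∏ j ∈ J, x j n := by
    rw [h1, ← add_sum_erase _ _ (empty_mem_powerset F)]
    simp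
  have hσa : ∀ j, |σ j| = 1 := by
    intro j
    have h3 := hσ j
    rw [← sq_abs] at h3
    have := abs_nonneg (σ j)
    nlinarith
  have h3 : |(2 : ℝ) ^ F.card * p - N| ≤ ε * N := by
    rw [h2]
    refine (abs_sum_le_sum_abs _ _).trans (le_trans (le_of_eq ?_) ht)
    refine sum_congr rfl fun J _ => ?_
    rw [abs_mul, abs_prod, prod_congr rfl (fun j _ => hσa j), prod_const_one, one_mul]
  have h5 : (0 : ℝ) < 2 ^ F.card := by positivity
  have h6 : p - N / 2 ^ F.card = ((2 : ℝ) ^ F.card * p - N) / 2 ^ F.card := by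
    field_simp
  rw [h6, abs_div, abs_of_pos h5, div_le_iff₀ h5]
  refine h3.trans (le_of_eq ?_)
  field_simp

/-- the scales at which all patterns on `F` have nearly the expected frequency -/
def PF (x : X → ℕ → ℝ) (ε : ℝ) (F : Finset X) : Set ℕ :=
  {N | ∀ σ : X → ℝ, (∀ p, σ p ^ 2 = 1) →
    |(occ x F σ N : ℝ) - (N : ℝ) / 2 ^ F.card| ≤ ε * ((N : ℝ) / 2 ^ F.card)}

lemma PF_mem [DecidableEq X] {U : Ultrafilter ℕ} (hU : (U : Filter ℕ) ≤ atTop)
    (hx : ∀ i n, x i n ^ 2 = 1) {ε : ℝ} {F : Finset X} (hF : tot U x F < ε) :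
    ∀ᶠ N in (U : Filter ℕ), N ∈ PF x ε F := by
  have h1 : Tendsto (fun N => ∑ J ∈ F.powerset.erase ∅, |avg (fun n => ∏ j ∈ J, x j n) N|)
      (U : Filter ℕ) (𝓝 (tot U x F)) :=
    tendsto_finsetSum _ fun J _ => (cc_tendsto U (prod_le hx J)).abs
  filter_upwards [h1.eventually (gt_mem_nhds hF), hU (eventually_ge_atTop 1)] with N h4 h5
  intro σ hσ
  have hN : (0 : ℝ) < N := by exact_mod_cast h5
  refine equiF hx F ?_ σ hσ
  have h6 : ∑ J ∈ F.powerset.erase ∅, |∑ n ∈ Icc 1 N, ∏ j ∈ J, x j n| =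
      (∑ J ∈ F.powerset.erase ∅, |avg (fun n => ∏ j ∈ J, x j n) N|) * N := by
    rw [sum_mul]
    refine sum_congr rfl fun J _ => ?_
    unfold avg
    rw [abs_div, abs_of_pos hN, div_mul_cancel₀ _ hN.ne']
  rw [h6]
  exact mul_le_mul_of_nonneg_right h4.le hN.le

/-- one sequence of scales for countably many conditions -/
lemma scales {U : Ultrafilter ℕ} (hU : (U : Filter ℕ) ≤ atTop) {G : Set ℕ} (hG : G ∈ U)
    {κ : Type} [Countable κ] (P : κ → Set ℕ) (hP : ∀ k, P k ∈ U) :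
    ∃ u : ℕ → ℕ, Tendsto u atTop atTop ∧ (∀ j, u j ∈ G) ∧ ∀ k, ∀ᶠ j in atTop, u j ∈ P k := by
  have hUL : (U : Filter ℕ) ≤ (atTop ⊓ 𝓟 G) ⊓ ⨅ k, 𝓟 (P k) := by
    refine le_inf (le_inf hU (le_principal_iff.2 hG)) ?_
    exact le_iInf fun k => le_principal_iff.2 (hP k)
  have hne : NeBot ((atTop ⊓ 𝓟 G) ⊓ ⨅ k, 𝓟 (P k) : Filter ℕ) := NeBot.mono U.neBot hUL
  obtain ⟨u, hu⟩ := exists_seq_tendsto ((atTop ⊓ 𝓟 G) ⊓ ⨅ k, 𝓟 (P k) : Filter ℕ)
  have hu1 : Tendsto u atTop (𝓟 G) := hu.mono_right (inf_le_left.trans inf_le_right)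
  obtain ⟨j₀, hj₀⟩ := eventually_atTop.1 (tendsto_principal.1 hu1)
  refine ⟨fun j => u (j + j₀), (hu.mono_right (inf_le_left.trans inf_le_left)).comp
    (tendsto_add_atTop_nat j₀), fun j => hj₀ _ (by omega), fun k => ?_⟩
  have h1 : Tendsto u atTop (𝓟 (P k)) := hu.mono_right (inf_le_right.trans (iInf_le _ k))
  exact (tendsto_add_atTop_nat j₀).eventually (tendsto_principal.1 h1)

/-- **all patterns on an infinite subfamily, along a sequence of scales** -/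
theorem seq [DecidableEq X] [Countable X] {U : Ultrafilter ℕ} {A : Set X}
    (hU : (U : Filter ℕ) ≤ atTop) (hx : ∀ i n, x i n ^ 2 = 1) (ho : OrthL U x A)
    (hA : A.Infinite) {ε : ℝ} (hε : 0 < ε) {G : Set ℕ} (hG : G ∈ U) :
    ∃ B ⊆ A, B.Infinite ∧ ∃ u : ℕ → ℕ, Tendsto u atTop atTop ∧ (∀ j, u j ∈ G) ∧
      ∀ F : Finset X, (F : Set X) ⊆ B → ∀ᶠ j in atTop, u j ∈ PF x ε F := by
  obtain ⟨B, hBA, hB, htot⟩ := subfamily hU hx ho hA hε
  obtain ⟨u, h1, h2, h3⟩ := scales hU hG (κ := {F : Finset X // (F : Set X) ⊆ B})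
    (fun F => PF x ε F.1) fun F => PF_mem hU hx (lt_of_le_of_lt (htot F.1 F.2) (by linarith))
  exact ⟨B, hBA, hB, u, h1, h2, fun F hF => h3 ⟨F, hF⟩⟩

end Pool.Agent.Run7.h103.SP
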