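import Mathlib
import Pool.Agent.Run7.h103.SP.Seq

set_option autoImplicit false

/-!
# Infinite families: all patterns on the tails of a sequence of members, relative to countably many weights
-/

namespace Pool.Agent.Run7.h103.SP

open Finset Filter Topology

variable {X : Type} {x : X → ℕ → ℝ} {U : Ultrafilter ℕ} {A : Set X}

lemma gprod_le (hx : ∀ i n, x i n ^ 2 = 1) {g : ℕ → ℝ} (hg : ∀ n, |g n| ≤ 1) (J : Finset X) (n : ℕ) :
    |g n * ∏ j ∈ J, x j n| ≤ 1 := by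
  rw [abs_mul]
  exact mul_le_one₀ (hg n) (abs_nonneg _) (prod_le hx J n)

/-- the next element -/
lemma nextW (hU : (U : Filter ℕ) ≤ atTop) (hx : ∀ i n, x i n ^ 2 = 1) (ho : OrthL U x A)
    (hA : A.Infinite) (g : ℕ → ℕ → ℝ) (hg : ∀ i n, |g i n| ≤ 1) (S : Finset X) (m : ℕ) {η : ℝ} (hη : 0 < η) :
    ∃ a, a ∈ A ∧ a ∉ S ∧ ∀ i ≤ m, ∀ J ∈ S.powerset,
      |cc U (fun n => (g i n * ∏ j ∈ J, x j n) * x a n)| ≤ η := by
  have h1 : (⋃ i ∈ range (m + 1), ⋃ J ∈ S.powerset,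
      {p | p ∈ A ∧ η < |cc U (fun n => (g i n * ∏ j ∈ J, x j n) * x p n)|}).Finite :=
    (range (m + 1)).finite_toSet.biUnion fun i _ =>
      S.powerset.finite_toSet.biUnion fun J _ => fewlim hU hx ho (gprod_le hx (hg i) J) hη
  obtain ⟨a, ha, ha'⟩ := (hA.sdiff (h1.union S.finite_toSet)).nonempty
  rw [Set.mem_union, not_or] at ha'
  refine ⟨a, ha, fun h => ha'.2 h, fun i hi J hJ => ?_⟩
  by_contra hcon
  push Not at hcon
  refine ha'.1 (Set.mem_biUnion (show i ∈ (range (m + 1) : Set ℕ) from ?_)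
    (Set.mem_biUnion (show J ∈ (S.powerset : Set (Finset X)) from hJ) ⟨ha, hcon⟩))
  exact mem_coe.2 (mem_range.2 (by omega))

/-- a sequence of members with small correlations with all the products of its predecessors -/
lemma seq_exists [DecidableEq X] (hU : (U : Filter ℕ) ≤ atTop) (hx : ∀ i n, x i n ^ 2 = 1) (ho : OrthL U x A)
    (hA : A.Infinite) (g : ℕ → ℕ → ℝ) (hg : ∀ i n, |g i n| ≤ 1) (η : ℕ → ℝ) (hη : ∀ m, 0 < η m) :
    ∃ e : ℕ → X, (∀ m, e m ∈ A) ∧ Function.Injective e ∧ ∀ m, ∀ i ≤ m, ∀ J ⊆ range m,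
      |cc U (fun n => g i n * ∏ j ∈ insert m J, x (e j) n)| ≤ η m := by
  choose nx h1 h2 h3 using fun (S : Finset X) (m : ℕ) => nextW hU hx ho hA g hg S m (hη m)
  let S : ℕ → Finset X := fun m => Nat.rec ∅ (fun m S => insert (nx S m) S) m
  let e : ℕ → X := fun m => nx (S m) m
  have hS : ∀ m, S (m + 1) = insert (e m) (S m) := fun m => rfl
  have hSe : ∀ m, S m = (range m).image e := by
    intro m
    induction m with
    | zero => rfl
    | succ m ih => rw [hS, range_add_one, image_insert, ih]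
  have hne : ∀ m k, k < m → e k ≠ e m := by
    intro m k hk h
    have h5 : e m ∈ (range m).image e := mem_image.2 ⟨k, mem_range.2 hk, h⟩
    have h6 : e m ∈ S m := (hSe m).symm ▸ h5
    exact h2 (S m) m h6
  have hinj : Function.Injective e := by
    intro k m h
    rcases lt_trichotomy k m with hk | hk | hk
    · exact absurd h (hne m k hk)
    · exact hk
    · exact absurd h.symm (hne k m hk)
  refine ⟨e, fun m => h1 _ _, hinj, fun m i hi J hJ => ?_⟩
  have h4 := h3 (S m) m i hi (J.image e) (by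
    rw [mem_powerset, hSe m]
    exact image_subset_image hJ)
  refine le_trans (le_of_eq ?_) h4
  congr 2
  funext n
  have hm : m ∉ J := fun h => by
    have := mem_range.1 (hJ h)
    omega
  rw [prod_insert hm, prod_image (fun a _ b _ h => hinj h)]
  ring

/-- the sum of the correlations over the subsets of a set of indices -/
noncomputable def totW (U : Ultrafilter ℕ) (x : X → ℕ → ℝ) (g : ℕ → ℝ) (e : ℕ → X) (F : Finset ℕ) : ℝ :=
  ∑ J ∈ F.powerset.erase ∅, |cc U (fun n => g n * ∏ j ∈ J, x (e j) n)|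

lemma totW_mono {g : ℕ → ℝ} {e : ℕ → X} {S T : Finset ℕ} (h : S ⊆ T) : totW U x g e S ≤ totW U x g e T := by
  unfold totW
  refine sum_le_sum_of_subset_of_nonneg ?_ fun _ _ _ => abs_nonneg _
  exact erase_subset_erase _ (powerset_mono.2 h)

lemma totW_insert {g : ℕ → ℝ} {e : ℕ → X} {S : Finset ℕ} {a : ℕ} (ha : a ∉ S) :
    totW U x g e (insert a S) = totW U x g e S +
      ∑ J ∈ S.powerset, |cc U (fun n => g n * ∏ j ∈ insert a J, x (e j) n)| := by
  unfold totW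
  have h1 : ∀ (B : Finset (Finset ℕ)) (hB : ∅ ∈ B) (f : Finset ℕ → ℝ),
      ∑ J ∈ B.erase ∅, f J = ∑ J ∈ B, f J - f ∅ := fun B hB f => by
    rw [← add_sum_erase B f hB]; ring
  rw [h1 _ (empty_mem_powerset _), h1 _ (empty_mem_powerset _), sum_powerset_insert ha]
  ring

lemma totW_Ico {g : ℕ → ℕ → ℝ} {e : ℕ → X}
    (he : ∀ m, ∀ i ≤ m, ∀ J ⊆ range m,
      |cc U (fun n => g i n * ∏ j ∈ insert m J, x (e j) n)| ≤ (1 / 4) ^ (m + 1))
    (m i : ℕ) (hi : i ≤ m) (M : ℕ) (hM : m ≤ M) :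
    totW U x (g i) e (Ico m M) ≤ (1 / 2) ^ (m + 1) - (1 / 2) ^ (M + 1) := by
  induction M, hM using Nat.le_induction with
  | base =>
    unfold totW
    simp
  | succ M hM ih =>
    have h1 : Ico m (M + 1) = insert M (Ico m M) := by
      ext t; simp only [mem_Ico, mem_insert]; omega
    rw [h1, totW_insert (by simp)]
    have h2 : ∑ J ∈ (Ico m M).powerset, |cc U (fun n => g i n * ∏ j ∈ insert M J, x (e j) n)| ≤
        (1 / 2) ^ (M + 2) := by
      calc _ ≤ ∑ _J ∈ (Ico m M).powerset, ((1 : ℝ) / 4) ^ (M + 1) := by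
            refine sum_le_sum fun J hJ => he M i (hi.trans hM) J ?_
            intro t ht
            have := mem_Ico.1 (mem_powerset.1 hJ ht)
            exact mem_range.2 this.2
        _ = 2 ^ (M - m) * ((1 : ℝ) / 4) ^ (M + 1) := by
            rw [sum_const, card_powerset, Nat.card_Ico, nsmul_eq_mul]
            push_cast
            rfl
        _ ≤ 2 ^ M * ((1 : ℝ) / 4) ^ (M + 1) := by
            refine mul_le_mul_of_nonneg_right ?_ (by positivity)
            exact pow_le_pow_right₀ (by norm_num) (by omega)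
        _ = _ := by
            have e1 : ((1 : ℝ) / 4) ^ (M + 1) = (1 / 2) ^ (M + 1) * (1 / 2) ^ (M + 1) := by
              rw [← mul_pow]; norm_num
            have e2 : (2 : ℝ) ^ M * (1 / 2) ^ (M + 1) = 1 / 2 := by
              rw [pow_succ, ← mul_assoc, ← mul_pow]; norm_num
            rw [e1, ← mul_assoc, e2]
            ring
    have h3 : ((1 : ℝ) / 2) ^ (M + 1) = 2 * (1 / 2) ^ (M + 2) := by ring
    have h4 : ((1 : ℝ) / 2) ^ (M + 1 + 1) = (1 / 2) ^ (M + 2) := rfl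
    rw [h4]
    linarith

/-- the weighted count of the occurrences of the pattern `σ` -/
noncomputable def occW (x : X → ℕ → ℝ) (g : ℕ → ℝ) (e : ℕ → X) (F : Finset ℕ) (σ : ℕ → ℝ) (N : ℕ) : ℝ := by
  classical
  exact ∑ n ∈ (Icc 1 N).filter (fun n => ∀ t ∈ F, x (e t) n = σ t), g n

lemma countW (hx : ∀ i n, x i n ^ 2 = 1) (g : ℕ → ℝ) (e : ℕ → X) (F : Finset ℕ) (σ : ℕ → ℝ)
    (hσ : ∀ j, σ j ^ 2 = 1) (N : ℕ) : (2 : ℝ) ^ F.card * occW x g e F σ N =
      ∑ J ∈ F.powerset, (∏ j ∈ J, σ j) * ∑ n ∈ Icc 1 N, g n * ∏ j ∈ J, x (e j) n := by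
  classical
  have h1 : ∀ n, (2 : ℝ) ^ F.card * (if ∀ p ∈ F, x (e p) n = σ p then g n else 0) =
      g n * ∏ j ∈ F, (1 + σ j * x (e j) n) := by
    intro n
    split_ifs with h
    · have : ∀ j ∈ F, 1 + σ j * x (e j) n = 2 := by
        intro j hj
        rw [h j hj, ← sq, hσ]
        norm_num
      rw [prod_congr rfl this, prod_const, mul_comm]
    · push Not at h
      obtain ⟨j, hjF, hj⟩ := h
      rw [mul_zero]
      symm
      rw [prod_eq_zero hjF, mul_zero]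
      have h2 := hx (e j) n
      have h3 := hσ j
      have h4 : (x (e j) n - σ j) * (x (e j) n + σ j) = 0 := by ring_nf; linarith
      rcases mul_eq_zero.1 h4 with h5 | h5
      · exact absurd (sub_eq_zero.1 h5) hj
      · have h6 : x (e j) n = - σ j := by linarith
        rw [h6]
        have : σ j * - σ j = -1 := by nlinarith
        linarith
  have h2 : occW x g e F σ N = ∑ n ∈ Icc 1 N, if ∀ p ∈ F, x (e p) n = σ p then g n else 0 := by
    unfold occW
    rw [sum_filter]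
  rw [h2, mul_sum]
  simp only [h1, prod_one_add, prod_mul_distrib, mul_sum]
  rw [sum_comm]
  refine sum_congr rfl fun J _ => ?_
  refine sum_congr rfl fun n _ => ?_
  ring

theorem equiW (hx : ∀ i n, x i n ^ 2 = 1) (g : ℕ → ℝ) (e : ℕ → X) (F : Finset ℕ) {N : ℕ} {ε : ℝ}
    (ht : ∑ J ∈ F.powerset.erase ∅, |∑ n ∈ Icc 1 N, g n * ∏ j ∈ J, x (e j) n| ≤ ε * N)
    (σ : ℕ → ℝ) (hσ : ∀ j, σ j ^ 2 = 1) :
    |occW x g e F σ N - (∑ n ∈ Icc 1 N, g n) / 2 ^ F.card| ≤ ε * (N / 2 ^ F.card) := by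
  classical
  have h1 := countW hx g e F σ hσ N
  set p : ℝ := occW x g e F σ N with hp
  have h2 : (2 : ℝ) ^ F.card * p - ∑ n ∈ Icc 1 N, g n =
      ∑ J ∈ F.powerset.erase ∅, (∏ j ∈ J, σ j) * ∑ n ∈ Icc 1 N, g n * ∏ j ∈ J, x (e j) n := by
    rw [h1, ← add_sum_erase _ _ (empty_mem_powerset F)]
    simp
  have hσa : ∀ j, |σ j| = 1 := by
    intro j
    have h3 := hσ j
    rw [← sq_abs] at h3
    have := abs_nonneg (σ j)
    nlinarith
  have h3 : |(2 : ℝ) ^ F.card * p - ∑ n ∈ Icc 1 N, g n| ≤ ε * N := by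
    rw [h2]
    refine (abs_sum_le_sum_abs _ _).trans (le_trans (le_of_eq ?_) ht)
    refine sum_congr rfl fun J _ => ?_
    rw [abs_mul, abs_prod, prod_congr rfl (fun j _ => hσa j), prod_const_one, one_mul]
  have h5 : (0 : ℝ) < 2 ^ F.card := by positivity
  have h6 : p - (∑ n ∈ Icc 1 N, g n) / 2 ^ F.card =
      ((2 : ℝ) ^ F.card * p - ∑ n ∈ Icc 1 N, g n) / 2 ^ F.card := by
    field_simp
  rw [h6, abs_div, abs_of_pos h5, div_le_iff₀ h5]
  refine h3.trans (le_of_eq ?_)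
  field_simp

/-- the scales at which all patterns on `F` have nearly the expected weighted frequency -/
def PW (x : X → ℕ → ℝ) (g : ℕ → ℝ) (e : ℕ → X) (ε : ℝ) (F : Finset ℕ) : Set ℕ :=
  {N | ∀ σ : ℕ → ℝ, (∀ p, σ p ^ 2 = 1) →
    |occW x g e F σ N - (∑ n ∈ Icc 1 N, g n) / 2 ^ F.card| ≤ ε * ((N : ℝ) / 2 ^ F.card)}

lemma PW_mem (hU : (U : Filter ℕ) ≤ atTop) (hx : ∀ i n, x i n ^ 2 = 1) {g : ℕ → ℝ} (hg : ∀ n, |g n| ≤ 1)
    {e : ℕ → X} (he : Function.Injective e) {ε : ℝ} {F : Finset ℕ} (hF : totW U x g e F < ε) :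
    PW x g e ε F ∈ U := by
  classical
  have h1 : Tendsto (fun N => ∑ J ∈ F.powerset.erase ∅, |avg (fun n => g n * ∏ j ∈ J, x (e j) n) N|)
      (U : Filter ℕ) (𝓝 (totW U x g e F)) :=
    tendsto_finsetSum _ fun J _ => (cc_tendsto U fun n => by
      have := gprod_le hx hg (J.image e) n
      rwa [prod_image (fun a _ b _ h => he h)] at this).abs
  filter_upwards [h1.eventually (gt_mem_nhds hF), hU (eventually_ge_atTop 1)] with N h4 h5
  intro σ hσ
  have hN : (0 : ℝ) < N := by exact_mod_cast h5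
  refine equiW hx g e F ?_ σ hσ
  have h6 : ∑ J ∈ F.powerset.erase ∅, |∑ n ∈ Icc 1 N, g n * ∏ j ∈ J, x (e j) n| =
      (∑ J ∈ F.powerset.erase ∅, |avg (fun n => g n * ∏ j ∈ J, x (e j) n) N|) * N := by
    rw [sum_mul]
    refine sum_congr rfl fun J _ => ?_
    unfold avg
    rw [abs_div, abs_of_pos hN, div_mul_cancel₀ _ hN.ne']
  rw [h6]
  exact mul_le_mul_of_nonneg_right h4.le hN.le

/-- **all patterns on the tails of a sequence of members, relative to countably many weights** -/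
theorem seqW [DecidableEq X] (hU : (U : Filter ℕ) ≤ atTop) (hx : ∀ i n, x i n ^ 2 = 1) (ho : OrthL U x A)
    (hA : A.Infinite) (g : ℕ → ℕ → ℝ) (hg : ∀ i n, |g i n| ≤ 1) {G : Set ℕ} (hG : G ∈ U) :
    ∃ e : ℕ → X, (∀ m, e m ∈ A) ∧ Function.Injective e ∧
      ∃ u : ℕ → ℕ, Tendsto u atTop atTop ∧ (∀ j, u j ∈ G) ∧
      ∀ m i : ℕ, i ≤ m → ∀ F : Finset ℕ, (∀ t ∈ F, m ≤ t) →
        ∀ᶠ j in atTop, u j ∈ PW x (g i) e ((1 / 2) ^ m) F := by
  obtain ⟨e, h1, h2, h3⟩ := seq_exists hU hx ho hA g hg (fun m => (1 / 4) ^ (m + 1)) fun m => by positivity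
  obtain ⟨u, h4, h5, h6⟩ := scales hU hG (κ := {q : ℕ × ℕ × Finset ℕ // q.2.1 ≤ q.1 ∧ ∀ t ∈ q.2.2, q.1 ≤ t})
    (fun q => PW x (g q.1.2.1) e ((1 / 2) ^ q.1.1) q.1.2.2) fun q => by
      obtain ⟨⟨m, i, F⟩, hi, hF⟩ := q
      refine PW_mem hU hx (hg i) h2 ?_
      simp only at hi hF ⊢
      have h7 := totW_Ico (U := U) (x := x) h3 m i hi (m + F.sup id + 1) (by omega)
      have h8 : F ⊆ Ico m (m + F.sup id + 1) := by
        intro t ht
        have h9 : t ≤ F.sup id := le_sup (f := id) ht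
        have h10 := hF t ht
        rw [mem_Ico]
        omega
      have h11 := totW_mono (U := U) (x := x) (g := g i) (e := e) h8
      have h12 : (0 : ℝ) < (1 / 2) ^ (m + F.sup id + 1 + 1) := by positivity
      have h13 : ((1 : ℝ) / 2) ^ (m + 1) ≤ (1 / 2) ^ m :=
        pow_le_pow_of_le_one (by norm_num) (by norm_num) (by omega)
      linarith
  exact ⟨e, h1, h2, u, h4, h5, fun m i hi F hF => h6 ⟨(m, i, F), hi, hF⟩⟩

end Pool.Agent.Run7.h103.SP
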