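import Mathlib
import Pool.Agent.Run7.h103.SP.Wt
import Pool.Agent.Run7.h103.SP.Tup
import Pool.Agent.Run7.h103.SP.Two
import Pool.Agent.Run7.h103.SP.Dens

set_option autoImplicit false

/-!
# Sign patterns of the Liouville function along arbitrary families of forms, from the vanishing of the
correlations of order two and of odd order outside a set of scales
-/

namespace Pool.Agent.Run7.h103.SP

open Finset Filter Topology
open Pool.Agent.Y958.U (LZ)

/-- the value of the Liouville function at the form `a n + b`, where `p = (a, b)` -/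
def L (p : ℕ × ℕ) (n : ℕ) : ℤ := (-1) ^ (ArithmeticFunction.cardFactors (p.1 * n + p.2))

/-- the forms are not proportional -/
def NP (p q : ℕ × ℕ) : Prop := p.1 * q.2 ≠ q.1 * p.2

/-- the correlations of order two and of odd order vanish outside `E` -/
def Corr (E : Set ℕ) : Prop := ∀ (k : ℕ) (f : Fin k → ℕ × ℕ), (∀ i, 1 ≤ (f i).1) →
  (Odd k ∨ (k = 2 ∧ ∀ i j, i ≠ j → NP (f i) (f j))) → ∀ δ : ℝ, 0 < δ →
  ∃ N₀ : ℕ, ∀ N : ℕ, N₀ ≤ N → N ∉ E → |∑ n ∈ Icc 1 N, ∏ i, (L (f i) n : ℝ)| ≤ δ * N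

lemma L_pm (p : ℕ × ℕ) (n : ℕ) : L p n = 1 ∨ L p n = -1 := by
  unfold L
  exact neg_one_pow_eq_or ℤ _

/-- real values -/
noncomputable def xr (p : ℕ × ℕ) (n : ℕ) : ℝ := (L p n : ℝ)

lemma xr_sq (p : ℕ × ℕ) (n : ℕ) : xr p n ^ 2 = 1 := by
  unfold xr
  rcases L_pm p n with h | h <;> rw [h] <;> norm_num

lemma pair {E : Set ℕ} (hE : Corr E) {p q : ℕ × ℕ} (hp : 1 ≤ p.1) (hq : 1 ≤ q.1) (hpq : NP p q) {δ : ℝ}
    (hδ : 0 < δ) : ∃ N₀ : ℕ, ∀ N : ℕ, N₀ ≤ N → N ∉ E → |∑ n ∈ Icc 1 N, xr p n * xr q n| ≤ δ * N := by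
  obtain ⟨N₀, h⟩ := hE 2 ![p, q] (by
    intro i; fin_cases i
    · exact hp
    · exact hq) (Or.inr ⟨rfl, by
      intro i j hij
      fin_cases i <;> fin_cases j
      · exact absurd rfl hij
      · exact hpq
      · exact fun h => hpq h.symm
      · exact absurd rfl hij⟩) δ hδ
  refine ⟨N₀, fun N hN hNE => ?_⟩
  have h1 := h N hN hNE
  simp only [Fin.prod_univ_two] at h1
  exact h1

lemma pairs {E : Set ℕ} (hE : Corr E) {ι : Type} [Finite ι] (f : ι → ℕ × ℕ) (hf : ∀ i, 1 ≤ (f i).1)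
    (hnp : ∀ i j, i ≠ j → NP (f i) (f j)) {δ : ℝ} (hδ : 0 < δ) :
    ∃ N₀ : ℕ, ∀ N : ℕ, N₀ ≤ N → N ∉ E → Orth (fun i => xr (f i)) δ N := by
  have h1 : ∀ i j, ∃ N₀ : ℕ, i ≠ j → ∀ N : ℕ, N₀ ≤ N → N ∉ E →
      |∑ n ∈ Icc 1 N, xr (f i) n * xr (f j) n| ≤ δ * N := by
    intro i j
    by_cases hij : i = j
    · exact ⟨0, fun h => absurd hij h⟩
    · obtain ⟨N₀, h⟩ := pair hE (hf i) (hf j) (hnp i j hij) hδ
      exact ⟨N₀, fun _ => h⟩
  choose B hB using h1
  obtain ⟨M, hM⟩ := (Set.finite_range fun p : ι × ι => B p.1 p.2).bddAbove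
  refine ⟨M, fun N hN hNE i j hij => hB i j hij N ?_ hNE⟩
  exact (hM ⟨(i, j), rfl⟩).trans hN

/-- the integral pattern and the real pattern -/
lemma pat_iff {ι : Type} (f : ι → ℕ × ℕ) (σ : ι → ℤ) (n : ℕ) :
    (∀ i, L (f i) n = σ i) ↔ ∀ i, xr (f i) n = (σ i : ℝ) := by
  unfold xr
  simp only [Int.cast_inj]

open Classical in
/-- the weighted number of the occurrences of the pattern `σ` on the forms `f` up to `N` -/
noncomputable def W {ι : Type} (g : ℕ → ℝ) (f : ι → ℕ × ℕ) (σ : ι → ℤ) (N : ℕ) : ℝ :=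
  ∑ n ∈ (Icc 1 N).filter (fun n => ∀ i, L (f i) n = σ i), g n

lemma W_one {ι : Type} (f : ι → ℕ × ℕ) (σ : ι → ℤ) (N : ℕ) (S : Finset ℕ)
    (hS : ∀ n, (∀ i, L (f i) n = σ i) → n ∈ S) : W (fun _ => 1) f σ N ≤ (S.card : ℝ) := by
  unfold W
  rw [sum_const, nsmul_eq_mul, mul_one]
  refine Nat.cast_le.2 (card_le_card fun n hn => ?_)
  simp only [mem_filter] at hn
  exact hS n hn.2

/-- all the patterns on the forms `f` have up to `N` nearly the expected weighted frequency -/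
def Eq {m : ℕ} (g : ℕ → ℝ) (f : Fin m → ℕ × ℕ) (ε : ℝ) (N : ℕ) : Prop :=
  ∀ σ : Fin m → ℤ, (∀ j, σ j = 1 ∨ σ j = -1) →
    |W g f σ N - (∑ n ∈ Icc 1 N, g n) / 2 ^ m| ≤ ε * (N / 2 ^ m)

open Classical in
/-- **almost all tuples of forms of a family take all the patterns** -/
theorem tuples {E : Set ℕ} (hE : Corr E) (K m : ℕ) (f : Fin K → ℕ × ℕ) (hf : ∀ i, 1 ≤ (f i).1)
    (hnp : ∀ i j, i ≠ j → NP (f i) (f j)) (ε : ℝ) (hε : 0 < ε) :
    ∃ N₀ : ℕ, ∀ N : ℕ, N₀ ≤ N → N ∉ E → ∀ g : ℕ → ℝ, (∀ n, |g n| ≤ 1) →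
      (K : ℝ) * ((univ.filter fun t : Fin m → Fin K => ¬ Eq g (fun j => f (t j)) ε N).card : ℝ) ≤
        2 * 8 ^ m / ε ^ 2 * (K : ℝ) ^ m := by
  set δ : ℝ := 1 / ((K : ℝ) ^ 2 + 1) with hδ
  have hδ0 : 0 < δ := by positivity
  obtain ⟨N₀, h⟩ := pairs hE f hf hnp hδ0
  refine ⟨max N₀ 1, fun N hN hNE g hg => ?_⟩
  have hN1 : 1 ≤ N := (le_max_right _ _).trans hN
  have ho := h N ((le_max_left _ _).trans hN) hNE
  have h1 := bad_card (κ := Fin m) (ι := Fin K) (x := fun i => xr (f i)) (fun i n => xr_sq (f i) n) hg hN1 ho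
    hδ0.le (by
      rw [Fintype.card_fin, hδ, mul_one_div, div_le_one (by positivity)]
      linarith) (θ := ε / 2 ^ m) (by positivity)
  rw [Fintype.card_fin, Fintype.card_fin] at h1
  have h2 : (univ.filter fun t : Fin m → Fin K => ¬ Eq g (fun j => f (t j)) ε N) ⊆
      bad (Fin m) (fun i => xr (f i)) g (ε / 2 ^ m) N := by
    intro t ht
    by_contra hcon
    refine (mem_filter.1 ht).2 ?_
    intro σ hσ
    have hσ' : ∀ j, ((σ j : ℝ)) ^ 2 = 1 := by
      intro j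
      rcases hσ j with h | h <;> rw [h] <;> norm_num
    have h3 := equi (ι := Fin K) (x := fun i => xr (f i)) (fun i n => xr_sq (f i) n) g (N := N) t
      (fun j => (σ j : ℝ)) hσ' hε.le (fun J hJ => by
        rw [Fintype.card_fin]
        by_contra hc
        push Not at hc
        exact hcon (mem_bad.2 ⟨J, hJ, hc⟩))
    rw [Fintype.card_fin] at h3
    unfold W
    refine le_trans (le_of_eq ?_) h3
    congr 2
    refine sum_congr ?_ fun _ _ => rfl
    ext n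
    simp only [mem_filter]
    exact and_congr_right fun _ => pat_iff (fun j => f (t j)) σ n
  have h3 : ((univ.filter fun t : Fin m → Fin K => ¬ Eq g (fun j => f (t j)) ε N).card : ℝ) ≤
      ((bad (Fin m) (fun i => xr (f i)) g (ε / 2 ^ m) N).card : ℝ) := by
    exact_mod_cast card_le_card h2
  refine (mul_le_mul_of_nonneg_left h3 (Nat.cast_nonneg _)).trans (h1.trans (le_of_eq ?_))
  have e8 : (8 : ℝ) ^ m = 2 ^ m * (2 ^ m * 2 ^ m) := by
    rw [← mul_pow, ← mul_pow]; norm_num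
  rw [e8]
  field_simp

/-- **infinite families** -/
theorem infinite {E : Set ℕ} (hEz : LZ E) (hE : Corr E) (A : Set (ℕ × ℕ)) (hA : A.Infinite)
    (hA1 : ∀ p ∈ A, 1 ≤ p.1) (hnp : ∀ p ∈ A, ∀ q ∈ A, p ≠ q → NP p q)
    (g : ℕ → ℕ → ℝ) (hg : ∀ i n, |g i n| ≤ 1) :
    ∃ e : ℕ → ℕ × ℕ, (∀ m, e m ∈ A) ∧ Function.Injective e ∧
      ∃ u : ℕ → ℕ, Tendsto u atTop atTop ∧ (∀ j, u j ∉ E) ∧
      ∀ k i : ℕ, i ≤ k → ∀ (m : ℕ) (t : Fin m → ℕ), Function.Injective t → (∀ s, k ≤ t s) →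
        ∀ᶠ j in atTop, Eq (g i) (fun s => e (t s)) ((1 / 2) ^ k) (u j) := by
  classical
  obtain ⟨U, hU, hUE⟩ := ultra hEz
  have ho : OrthL U xr A := by
    intro p hp q hq hpq δ hδ
    obtain ⟨N₀, h⟩ := pair hE (hA1 p hp) (hA1 q hq) (hnp p hp q hq hpq) hδ
    filter_upwards [hU (eventually_ge_atTop N₀), hUE] with N hN hNE
    exact h N hN hNE
  obtain ⟨e, h1, h2, u, h3, h4, h5⟩ := seqW hU xr_sq ho hA g hg hUE
  refine ⟨e, h1, h2, u, h3, h4, fun k i hi m t ht hkt => ?_⟩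
  filter_upwards [h5 k i hi (univ.image t) (by
    intro s hs
    obtain ⟨r, -, rfl⟩ := mem_image.1 hs
    exact hkt r)] with j hj
  intro σ hσ
  have hcard : (univ.image t : Finset ℕ).card = m := by
    rw [card_image_of_injective _ ht, card_univ, Fintype.card_fin]
  have h6 := hj (fun s => if h : ∃ r, t r = s then (σ h.choose : ℝ) else 1) (by
    intro s
    split_ifs with h
    · rcases hσ h.choose with h' | h' <;> rw [h'] <;> norm_num
    · norm_num)
  rw [hcard] at h6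
  refine le_trans (le_of_eq ?_) h6
  congr 2
  unfold W occW
  refine sum_congr ?_ fun _ _ => rfl
  ext n
  simp only [mem_filter]
  refine and_congr_right fun _ => ?_
  rw [pat_iff]
  have hval : ∀ r, (if h : ∃ r', t r' = t r then (σ h.choose : ℝ) else 1) = (σ r : ℝ) := by
    intro r
    have h : ∃ r', t r' = t r := ⟨r, rfl⟩
    rw [dif_pos h]
    have := ht h.choose_spec
    rw [this]
  constructor
  · intro hh s hs
    obtain ⟨r, -, rfl⟩ := mem_image.1 hs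
    rw [hval r]
    exact hh r
  · intro hh r
    rw [← hval r]
    exact hh (t r) (mem_image_of_mem _ (mem_univ _))

/-- **infinite sets of shifts** -/
theorem shifts {E : Set ℕ} (hEz : LZ E) (hE : Corr E) (H : Set ℕ) (hH : H.Infinite) :
    ∃ B ⊆ H, B.Infinite ∧ ∀ F : Finset ℕ, (F : Set ℕ) ⊆ B → ∀ σ : ℕ → ℤ, (∀ h, σ h = 1 ∨ σ h = -1) →
      {n : ℕ | ∀ h ∈ F, (-1 : ℤ) ^ ArithmeticFunction.cardFactors (n + h) = σ h}.Infinite := by
  classical
  obtain ⟨e, h1, h2, u, h3, -, h5⟩ := infinite hEz hE ((fun h => ((1, h) : ℕ × ℕ)) '' H)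
    (hH.image fun a _ b _ h => (Prod.ext_iff.1 h).2) (by
      rintro p ⟨h, -, rfl⟩
      exact le_rfl) (by
      rintro p ⟨h, -, rfl⟩ q ⟨h', -, rfl⟩ hpq hh
      simp only [one_mul] at hh
      exact hpq (by rw [hh])) (fun _ _ => 1) (fun _ _ => by simp)
  have he : ∀ m, e m = (1, (e m).2) := by
    intro m
    obtain ⟨h, -, hh⟩ := h1 m
    rw [← hh]
  have heH : ∀ m, (e m).2 ∈ H := by
    intro m
    obtain ⟨h, hm, hh⟩ := h1 m
    rw [← hh]
    exact hm
  have hinj : Function.Injective fun m => (e (m + 1)).2 := by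
    intro a b hab
    have h6 : e (a + 1) = e (b + 1) := by
      rw [he (a + 1), he (b + 1)]
      exact Prod.ext rfl hab
    have := h2 h6
    omega
  refine ⟨Set.range fun m => (e (m + 1)).2, ?_, Set.infinite_range_of_injective hinj, ?_⟩
  · rintro _ ⟨m, rfl⟩
    exact heH _
  intro F hF σ hσ hfin
  have h6 : ∀ s : Fin F.card, ∃ r : ℕ, 1 ≤ r ∧ (e r).2 = (F.equivFin.symm s : ℕ) := by
    intro s
    obtain ⟨m, hm⟩ := hF (F.equivFin.symm s).2
    exact ⟨m + 1, by omega, hm⟩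
  choose t ht1 ht2 using h6
  have htinj : Function.Injective t := by
    intro a b hab
    have h7 : (F.equivFin.symm a : ℕ) = (F.equivFin.symm b : ℕ) := by rw [← ht2 a, ← ht2 b, hab]
    exact F.equivFin.symm.injective (Subtype.ext h7)
  obtain ⟨j, hj1, hj2⟩ := ((h5 1 0 (by omega) F.card t htinj ht1).and
    (h3.eventually (eventually_gt_atTop (2 ^ (F.card + 1) * hfin.toFinset.card)))).exists
  have h7 := hj1 (fun s => σ (F.equivFin.symm s)) fun s => hσ _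
  have h8 : W (fun _ => 1) (fun s => e (t s)) (fun s => σ (F.equivFin.symm s)) (u j) ≤
      (hfin.toFinset.card : ℝ) := by
    refine W_one _ _ _ _ fun n hn => ?_
    rw [Set.Finite.mem_toFinset]
    intro h hh
    have h10 := hn (F.equivFin ⟨h, hh⟩)
    unfold L at h10
    rw [he (t (F.equivFin ⟨h, hh⟩)), ht2] at h10
    simp only [Equiv.symm_apply_apply, one_mul] at h10
    exact h10
  have h9 : ((2 : ℝ) ^ (F.card + 1)) * (hfin.toFinset.card : ℝ) < (u j : ℝ) := by exact_mod_cast hj2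
  simp only [sum_const, Nat.card_Icc, nsmul_eq_mul, mul_one, Nat.add_sub_cancel, pow_one] at h7
  have h10 := (abs_le.1 h7).1
  have h11 : (0 : ℝ) < 2 ^ F.card := by positivity
  have h12 : (u j : ℝ) / 2 ^ F.card = 2 * ((u j : ℝ) / 2 ^ (F.card + 1)) := by
    rw [pow_succ]
    field_simp
  have h13 : (hfin.toFinset.card : ℝ) < (u j : ℝ) / 2 ^ (F.card + 1) := by
    rw [lt_div_iff₀ (by positivity)]
    linarith
  linarith

open Classical in
/-- the patterns on the forms `f` which occur for at least `c N` of the `n ≤ N` -/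
noncomputable def patt {K : ℕ} (f : Fin K → ℕ × ℕ) (c : ℝ) (N : ℕ) : Finset (Fin K → ℤ) :=
  ((Icc 1 N).image fun n i => L (f i) n).filter fun σ =>
    c * N ≤ (((Icc 1 N).filter fun n => ∀ i, L (f i) n = σ i).card : ℝ)

/-- **`2 K` patterns** -/
theorem many {E : Set ℕ} (hE : Corr E) (K : ℕ) (f : Fin K → ℕ × ℕ) (hf : ∀ i, 1 ≤ (f i).1)
    (hnp : ∀ i j, i ≠ j → NP (f i) (f j)) :
    ∃ N₀ : ℕ, ∀ N : ℕ, N₀ ≤ N → N ∉ E → 2 * K ≤ (patt f (1 / (8 * K * 2 ^ K)) N).card := by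
  classical
  rcases Nat.eq_zero_or_pos K with hK | hK
  · subst hK
    exact ⟨0, fun N _ _ => by simp⟩
  have i₀ : Fin K := ⟨0, hK⟩
  set δ : ℝ := 1 / (4 * K) with hδ
  have hK0 : (0 : ℝ) < K := by exact_mod_cast hK
  have hδ0 : 0 < δ := by positivity
  obtain ⟨N₁, h1⟩ := pairs hE f hf hnp hδ0
  have h2 : ∀ p : Fin K × Fin K, ∃ N₀ : ℕ, ∀ N : ℕ, N₀ ≤ N → N ∉ E →
      |∑ n ∈ Icc 1 N, (L (f i₀) n : ℝ) * (L (f p.1) n : ℝ) * (L (f p.2) n : ℝ)| ≤ δ * N := by
    intro p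
    obtain ⟨N₀, h⟩ := hE 3 ![f i₀, f p.1, f p.2] (by
      intro i; fin_cases i
      · exact hf _
      · exact hf _
      · exact hf _) (Or.inl (by decide)) δ hδ0
    refine ⟨N₀, fun N hN hNE => ?_⟩
    have h3 := h N hN hNE
    simp only [Fin.prod_univ_three] at h3
    exact h3
  choose B hB using h2
  obtain ⟨M, hM⟩ := (Set.finite_range B).bddAbove
  refine ⟨max 1 (max N₁ M), fun N hN hNE => ?_⟩
  have hN1 : 1 ≤ N := (le_max_left _ _).trans hN
  have hN2 : N₁ ≤ N := (le_max_left _ _).trans ((le_max_right _ _).trans hN)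
  have hN3 : M ≤ N := (le_max_right _ _).trans ((le_max_right _ _).trans hN)
  have h4 := twoK (ι := Fin K) (fun i n => L (f i) n) (fun i n => L_pm (f i) n) i₀ hN1
    (fun i j hij => h1 N hN2 hNE i j hij)
    (fun i j => hB (i, j) N ((hM ⟨(i, j), rfl⟩).trans hN3) hNE) hδ0.le (by
      rw [Fintype.card_fin, hδ]
      field_simp
      exact le_rfl)
  rw [Fintype.card_fin] at h4
  refine h4.trans (le_of_eq ?_)
  unfold freq patt
  congr 1
  refine filter_congr fun σ _ => ?_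
  have h5 : ∀ n, ((fun i => L (f i) n) = σ) ↔ ∀ i, L (f i) n = σ i := fun n => funext_iff
  simp only [h5]

end Pool.Agent.Run7.h103.SP
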