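import Mathlib
import Pool.Agent.Run7.h17.Fixed
import Pool.Agent.Run7.h103.SP.App

set_option autoImplicit false

/-!
# The correlations of order two and of odd order of the Liouville function vanish at almost all scales
-/

namespace Pool.Agent.Run7.h103.SP

open Finset Filter Topology
open Pool.Agent.Y958.U (LZ)

theorem corr : ∃ E : Set ℕ, LZ E ∧ Corr E := by
  obtain ⟨E, hE, h⟩ := Pool.Agent.Run7.h17.Fx.one_E
  refine ⟨E, hE, fun k f hf hk δ hδ => ?_⟩
  obtain ⟨N₀, h1⟩ := h k (fun i => (f i).1) (fun i => (f i).2) δ hδ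
  refine ⟨N₀, fun N hN hNE => ?_⟩
  have hA : Pool.Agent.Run7.h17.Fx.Adm k (fun i => (f i).1) (fun i => (f i).2) 0 := ⟨hf, by
    rcases hk with h2 | ⟨h2, h3⟩
    · exact Or.inl ⟨h2, rfl⟩
    · exact Or.inr ⟨h2, fun i j hij => h3 i j hij⟩⟩
  have h2 := h1 N hN hNE 0 hA N le_rfl
  have h3 : Pool.Agent.Run7.h17.Fx.S k (fun i => (f i).1) (fun i => (f i).2) 0 N =
      ((∑ n ∈ Icc 1 N, ∏ i, (L (f i) n : ℝ) : ℝ) : ℂ) := by
    unfold Pool.Agent.Run7.h17.Fx.S Pool.Agent.Run7.h17.BDH.FF Pool.Agent.Run7.h17.Fx.ff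
    push_cast
    refine sum_congr rfl fun n _ => ?_
    have h4 : Pool.Agent.Helper112.ee ((n : ℝ) * 0) = 1 := by
      unfold Pool.Agent.Helper112.ee
      simp
    rw [h4, mul_one]
    unfold L Pool.Agent.H376R2.MR.lam
    rfl
  rw [h3, Complex.norm_real, Real.norm_eq_abs] at h2
  exact h2

end Pool.Agent.Run7.h103.SP
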